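import Mathlib
import Pool.Agent.H86.CMLib.W522.U.C5

/-!
# Enlarging the group by a torus
-/

set_option linter.unusedSectionVars false

namespace Pool.Agent.TH118.WC

open Module Pool.Agent.H204R3.SP Pool.Agent.H204R3.GP Pool.Agent.W522.U

noncomputable section

variable {K : Type*} [Field K] [CharZero K]
  {I : Type*} [Fintype I] [DecidableEq I] {E : I → Type*} [∀ i, AddCommGroup (E i)]
  [∀ i, Module K (E i)] [∀ i, FiniteDimensional K (E i)] {G : Type*} [Group G]

theorem fi_comap {G G' : Type*} [Group G] [Group G'] (f : G →* G') (Δ : Subgroup G')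
    (hΔ : Δ.FiniteIndex) : (Δ.comap f).FiniteIndex := by
  constructor
  rw [Subgroup.index_comap]
  intro h
  exact hΔ.index_ne_zero (by
    have h2 : Δ.relIndex f.range ≠ 0 := by
      have : (Δ.subgroupOf f.range).FiniteIndex := inferInstance
      exact this.index_ne_zero
    exact absurd h h2)

/-- The torus. -/
def Tor (K : Type*) [Field K] {I : Type*} (st : I → I) : Subgroup (I → Kˣ) where
  carrier := {c | ∀ i, c (st i) = (c i)⁻¹}
  one_mem' := fun i => by simp
  mul_mem' := by
    intro a b ha hb i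
    rw [Pi.mul_apply, Pi.mul_apply, ha i, hb i, mul_inv]
  inv_mem' := by
    intro a ha i
    rw [Pi.inv_apply, Pi.inv_apply, ha i]

theorem tor_mul (st : I → I) (c : Tor K st) (i : I) : ((c.1 i : Kˣ) : K) * (c.1 (st i) : Kˣ) = 1 := by
  rw [c.2 i]
  exact Units.mul_inv _

/-- The enlarged representations. -/
def rt (r : ∀ i, Representation K G (E i)) (st : I → I) (i : I) :
    Representation K (G × Tor K st) (E i) where
  toFun g := ((g.2.1 i : Kˣ) : K) • r i g.1
  map_one' := by simp
  map_mul' g h := by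
    change ((g.2.1 i * h.2.1 i : Kˣ) : K) • r i (g.1 * h.1) = _
    rw [map_mul, Units.val_mul, smul_mul_smul_comm]

theorem rt_apply (r : ∀ i, Representation K G (E i)) (st : I → I) (i : I) (g : G × Tor K st)
    (u : E i) : rt r st i g u = ((g.2.1 i : Kˣ) : K) • r i g.1 u := rfl

/-- The enlarged character. -/
def ct (χ : G →* K) (st : I → I) : (G × Tor K st) →* K := χ.comp (MonoidHom.fst G (Tor K st))

theorem ct_apply (χ : G →* K) (st : I → I) (g : G × Tor K st) : ct χ st g = χ g.1 := rfl

variable {r : ∀ i, Representation K G (E i)} {χ : G →* K} {st : I → I}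

theorem rt_one (g : G) (i : I) (u : E i) : rt r st i (g, 1) u = r i g u := by
  rw [rt_apply]
  change ((1 : Kˣ) : K) • r i g u = _
  rw [Units.val_one, one_smul]

theorem pi_one (g : G) (y : ∀ i, E i) : piRep (rt r st) (g, 1) y = piRep r g y := by
  funext i
  exact rt_one g i _

/-- Tate forms for the enlarged group are Tate forms. -/
theorem tate_small {m : ℕ} {φ : MultilinearMap K (fun _ : Fin m × Fin 2 => ∀ i, E i) K}
    (hφ : IsTate (piRep (rt r st)) (ct χ st) m φ) : IsTate (piRep r) χ m φ := by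
  obtain ⟨Δ, hΔ, h⟩ := hφ
  refine ⟨Δ.comap (MonoidHom.inl G (Tor K st)), fi_comap _ _ hΔ, fun s hs v => ?_⟩
  have h1 := h (s, 1) hs v
  simp only [pi_one] at h1
  exact h1

theorem tate2_small {B : (∀ i, E i) →ₗ[K] (∀ i, E i) →ₗ[K] K}
    (hB : IsTate2 (piRep (rt r st)) (ct χ st) B) : IsTate2 (piRep r) χ B := by
  obtain ⟨Δ, hΔ, h⟩ := hB
  refine ⟨Δ.comap (MonoidHom.inl G (Tor K st)), fi_comap _ _ hΔ, fun s hs u v => ?_⟩
  have h1 := h (s, 1) hs u v
  simp only [pi_one] at h1
  exact h1

variable (ω : (∀ i, E i) →ₗ[K] (∀ i, E i) →ₗ[K] K) (halt : ∀ u, ω u u = 0)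
  (hnd : ∀ u, (∀ w, ω u w = 0) → u = 0)
  (hωρ : ∀ g u v, ω (piRep r g u) (piRep r g v) = χ g * ω u v)
  (hst : ∀ i, st (st i) = i)
  (hor : ∀ i j, j ≠ st i → ∀ (u : E i) (v : E j), ω (Pi.single i u) (Pi.single j v) = 0)
  (htw : ∀ i j, i ≠ j → 2 ≤ finrank K (E i) → 2 ≤ finrank K (E j) →
    ∀ (T : E i →ₗ[K] E j) (ψ : G → K), (∀ g u, T (r i g u) = ψ g • r j g (T u)) → T = 0)
  (hirr : ∀ i, Irr (r i))
  (hnil : ∀ i, 2 ≤ finrank K (E i) → ∃ N ∈ lieT (piRep r) χ, N * N = 0 ∧
    ∃ (u : E i) (φ : Dual K (E i)), u ≠ 0 ∧ φ ≠ 0 ∧ ∀ x, N (Pi.single i x) i = φ x • u)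
  (hpos : ∀ i, 0 < finrank K (E i))

include hor hωρ in
theorem form_rt (g : G × Tor K st) (u v : ∀ i, E i) :
    ω (piRep (rt r st) g u) (piRep (rt r st) g v) = ct χ st g * ω u v := by
  have key : ∀ i j (a : E i) (b : E j),
      ω (piRep (rt r st) g (Pi.single i a)) (piRep (rt r st) g (Pi.single j b)) =
        ct χ st g * ω (Pi.single i a) (Pi.single j b) := by
    intro i j a b
    rw [piRep_single, piRep_single, rt_apply, rt_apply]
    by_cases h : j = st i
    · subst h
      rw [← LinearMap.coe_single K E, ← LinearMap.coe_single K E, map_smul, map_smul, map_smul,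
        map_smul, LinearMap.smul_apply, smul_eq_mul, smul_eq_mul, ← mul_assoc,
        mul_comm _ ((g.2.1 i : Kˣ) : K), tor_mul, one_mul]
      have h1 := hωρ g.1 (Pi.single i a) (Pi.single (st i) b)
      rw [piRep_single, piRep_single] at h1
      exact h1
    · rw [hor i j h, hor i j h, mul_zero]
  have hu : u = ∑ i, Pi.single i (u i) := (Finset.univ_sum_single u).symm
  have hv : v = ∑ i, Pi.single i (v i) := (Finset.univ_sum_single v).symm
  rw [hu, hv]
  simp only [map_sum, LinearMap.sum_apply, Finset.mul_sum]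
  refine Finset.sum_congr rfl fun i _ => Finset.sum_congr rfl fun j _ => key _ _ _ _

/-- Bilinear Tate forms for the enlarged group only pair dual components. -/
theorem tate2_orth {B : (∀ i, E i) →ₗ[K] (∀ i, E i) →ₗ[K] K}
    (hst : ∀ i, st (st i) = i)
    (hB : IsTate2 (piRep (rt r st)) (ct χ st) B) {i j : I} (hij : j ≠ st i)
    (hi : st i ≠ i ∨ st j ≠ j) (a : E i) (b : E j) : B (Pi.single i a) (Pi.single j b) = 0 := by
  obtain ⟨Δ, hΔ, h⟩ := hB
  -- a torus element
  obtain ⟨c, hc⟩ : ∃ c : Tor K st, ((c.1 i : Kˣ) : K) * (c.1 j : Kˣ) = 2 ∨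
      ((c.1 i : Kˣ) : K) * (c.1 j : Kˣ) = 4 := by
    have h20 : (2 : K) ≠ 0 := two_ne_zero
    let x : Kˣ := Units.mk0 2 h20
    -- the element supported on the orbit of `k`
    have hmk : ∀ k, st k ≠ k → ∃ c : Tor K st, c.1 k = x ∧ c.1 (st k) = x⁻¹ ∧
        ∀ l, l ≠ k → l ≠ st k → c.1 l = 1 := by
      intro k hk
      refine ⟨⟨fun l => if l = k then x else if l = st k then x⁻¹ else 1, fun l => ?_⟩, ?_, ?_, ?_⟩
      · change (if st l = k then x else if st l = st k then x⁻¹ else 1) =
          (if l = k then x else if l = st k then x⁻¹ else 1)⁻¹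
        by_cases h1 : l = k
        · subst h1
          rw [if_neg hk, if_pos rfl, if_pos rfl]
        · by_cases h2 : l = st k
          · subst h2
            rw [hst, if_pos rfl, if_neg hk, if_pos rfl, inv_inv]
          · rw [if_neg (fun h3 => h2 (by rw [← h3, hst])), if_neg (fun h3 => h1 (by
              rw [← hst l, h3, hst])), if_neg h1, if_neg h2, inv_one]
      · change (if k = k then x else _) = x
        rw [if_pos rfl]
      · change (if st k = k then x else if st k = st k then x⁻¹ else 1) = x⁻¹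
        rw [if_neg hk, if_pos rfl]
      · intro l h1 h2
        change (if l = k then x else if l = st k then x⁻¹ else 1) = 1
        rw [if_neg h1, if_neg h2]
    have hx : ((x : Kˣ) : K) = 2 := rfl
    rcases hi with hi | hi
    · obtain ⟨c, h1, h2, h3⟩ := hmk i hi
      refine ⟨c, ?_⟩
      by_cases h4 : j = i
      · right
        rw [h4, h1, hx]
        norm_num
      · left
        rw [h1, h3 j h4 hij, hx, Units.val_one, mul_one]
    · obtain ⟨c, h1, h2, h3⟩ := hmk j hi
      refine ⟨c, ?_⟩
      by_cases h4 : i = j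
      · right
        rw [h4, h1, hx]
        norm_num
      · left
        rw [h1, h3 i h4 (fun h5 => hij (by rw [h5, hst])), hx, Units.val_one, one_mul]
  have hfi : Δ.normalCore.FiniteIndex := inferInstance
  set M := Δ.normalCore.index with hM
  have hM0 : M ≠ 0 := hfi.index_ne_zero
  have hmem : ((1 : G), c) ^ M ∈ Δ := Δ.normalCore_le (Δ.normalCore.pow_index_mem _)
  have h1 := h _ hmem (Pi.single i a) (Pi.single j b)
  rw [piRep_single, piRep_single, rt_apply, rt_apply, ct_apply] at h1
  have e1 : (((1 : G), c) ^ M).1 = 1 := by rw [Prod.pow_fst, one_pow]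
  have e2 : ∀ l, ((((1 : G), c) ^ M).2.1 l : Kˣ) = (c.1 l) ^ M := by
    intro l
    rw [Prod.pow_snd]
    rfl
  rw [e1, e2, e2, map_one, map_one, map_one, one_mul, Module.End.one_apply, Module.End.one_apply,
    ← LinearMap.coe_single K E, ← LinearMap.coe_single K E, map_smul, map_smul, map_smul,
    LinearMap.smul_apply, smul_eq_mul, map_smul, smul_eq_mul, ← mul_assoc,
    Units.val_pow_eq_pow_val, Units.val_pow_eq_pow_val, ← mul_pow] at h1
  have h2 : (((c.1 i : Kˣ) : K) * ((c.1 j : Kˣ) : K)) ^ M ≠ 1 := by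
    rcases hc with hc | hc
    · rw [hc]
      intro h3
      have h4 : (2 : ℕ) ^ M = 1 := by exact_mod_cast h3
      exact absurd h4 (Nat.one_lt_two_pow hM0).ne'
    · rw [hc]
      intro h3
      have h4 : (4 : ℕ) ^ M = 1 := by exact_mod_cast h3
      exact absurd h4 (Nat.one_lt_pow hM0 (by norm_num)).ne'
  have h3 : ((((c.1 i : Kˣ) : K) * ((c.1 j : Kˣ) : K)) ^ M - 1) *
      B (LinearMap.single K E i a) (LinearMap.single K E j b) = 0 := by
    rw [sub_mul, one_mul, h1, sub_self]
  exact (mul_eq_zero.1 h3).resolve_left (sub_ne_zero.2 h2)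

include halt hnd hωρ hst hor htw hirr hnil hpos in
theorem main_rt [IsAlgClosed K] {m : ℕ}
    (φ : MultilinearMap K (fun _ : Fin m × Fin 2 => ∀ i, E i) K)
    (hφ : IsTate (piRep (rt r st)) (ct χ st) m φ) :
    φ ∈ Submodule.span K (PT (piRep (rt r st)) (ct χ st) m) := by
  have hirr' : ∀ i, Irr (rt r st i) := by
    intro i Δ hΔ U hU
    refine hirr i (Δ.comap (MonoidHom.inl G (Tor K st))) (fi_comap _ _ hΔ) U fun g hg u hu => ?_
    have h1 := hU (g, 1) hg u hu
    rwa [rt_one] at h1
  refine main_pi ω halt hnd (form_rt ω hωρ hor) st hst hor ?_ (fun i _ => hirr' i) ?_ ?_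
    (hasProj_pi hirr') φ hφ
  · intro i j hij hi hj T ψ hT
    refine htw i j hij hi hj T (fun g => ψ (g, 1)) fun g u => ?_
    have h1 := hT (g, 1) u
    rwa [rt_one, rt_one] at h1
  · intro i hi
    obtain ⟨N, hN, h1⟩ := hnil i hi
    exact ⟨N, fun m φ hφ => hN m φ (tate_small hφ), h1⟩
  · intro a ha h
    funext i
    by_cases hi : st i = i
    · have h1 := ha i
      rw [hi] at h1
      change a i = 0
      omega
    · have h20 : (2 : K) ≠ 0 := two_ne_zero
      let x : Kˣ := Units.mk0 2 h20
      let c : Tor K st := ⟨fun l => if l = i then x else if l = st i then x⁻¹ else 1, fun l => by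
        change (if st l = i then x else if st l = st i then x⁻¹ else 1) =
          (if l = i then x else if l = st i then x⁻¹ else 1)⁻¹
        by_cases h1 : l = i
        · subst h1
          rw [if_neg hi, if_pos rfl, if_pos rfl]
        · by_cases h2 : l = st i
          · subst h2
            rw [hst, if_pos rfl, if_neg hi, if_pos rfl, inv_inv]
          · rw [if_neg (fun h3 => h2 (by rw [← h3, hst])), if_neg (fun h3 => h1 (by
              rw [← hst l, h3, hst])), if_neg h1, if_neg h2, inv_one]⟩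
      have h1 := h (1, c)
      have hdet : ∀ l, LinearMap.det (rt r st l (1, c)) = ((c.1 l : Kˣ) : K) ^ finrank K (E l) := by
        intro l
        have h2 : rt r st l (1, c) = ((c.1 l : Kˣ) : K) • (1 : Module.End K (E l)) := by
          refine LinearMap.ext fun u => ?_
          rw [rt_apply, map_one]
          rfl
        rw [h2, LinearMap.det_smul, map_one, mul_one]
      rw [← Finset.mul_prod_erase _ _ (Finset.mem_univ i), ← Finset.mul_prod_erase _ _
        (Finset.mem_erase.2 ⟨hi, Finset.mem_univ (st i)⟩), Finset.prod_eq_one, mul_one] at h1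
      · have c1 : c.1 i = x := if_pos rfl
        have c2 : c.1 (st i) = x⁻¹ := by
          change (if st i = i then x else if st i = st i then x⁻¹ else 1) = x⁻¹
          rw [if_neg hi, if_pos rfl]
        have hfr : finrank K (E (st i)) = finrank K (E i) := finrank_st ω hnd st hst hor i
        rw [hdet, hdet, c1, c2, ha, hfr, Units.val_inv_eq_inv_val, inv_pow, inv_zpow, zpow_neg,
          inv_inv, ← zpow_add₀ (pow_ne_zero _ (Units.ne_zero x))] at h1
        have hx : ((x : Kˣ) : K) = 2 := rfl
        rw [hx, ← zpow_natCast, ← zpow_mul] at h1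
        have h3 : ((2 : ℚ) : K) = 2 := by norm_num
        have h4 : (2 : ℚ) ^ ((finrank K (E i) : ℤ) * (a i + a i)) = 1 := by
          have h5 : (((2 : ℚ) ^ ((finrank K (E i) : ℤ) * (a i + a i)) : ℚ) : K) = ((1 : ℚ) : K) := by
            rw [Rat.cast_zpow, h3, h1, Rat.cast_one]
          exact_mod_cast h5
        have h6 := (zpow_eq_one_iff_right₀ (by norm_num : (0 : ℚ) ≤ 2) (by norm_num)).1 h4
        have h7 : (finrank K (E i) : ℤ) ≠ 0 := by
          have := hpos i
          omega
        have h8 := (mul_eq_zero.1 h6).resolve_left h7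
        change a i = 0
        omega
      · intro l hl
        rw [Finset.mem_erase, Finset.mem_erase] at hl
        have c3 : c.1 l = 1 := by
          change (if l = i then x else if l = st i then x⁻¹ else 1) = 1
          rw [if_neg hl.2.1, if_neg hl.1]
        rw [hdet, c3, Units.val_one, one_pow, one_zpow]

end

end Pool.Agent.TH118.WC
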