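import Mathlib
import Pool.Agent.H86.CMLib.TH118.WC.Exp

/-!
# The character on the product of a form and determinants
-/

set_option linter.unusedSectionVars false

namespace Pool.Agent.TH118.WC

open Module Pool.Agent.H204R3.SP Pool.Agent.H204R3.GP Pool.Agent.W522.U

noncomputable section

theorem fi_of_pow {H K : Type*} [Group H] [Field K] (ψ : H →* K) (N : ℕ) (hN : 0 < N)
    (h : ∀ x, ψ x ^ N = 1) : ∃ Δ : Subgroup H, Δ.FiniteIndex ∧ ∀ x ∈ Δ, ψ x = 1 := by
  have : NeZero N := ⟨hN.ne'⟩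
  let ψ' : H →* rootsOfUnity N K :=
    ψ.toHomUnits.codRestrict (rootsOfUnity N K) (fun x => by
      rw [mem_rootsOfUnity]
      apply Units.ext
      exact h x)
  refine ⟨ψ'.ker, inferInstance, fun x hx => ?_⟩
  rw [MonoidHom.mem_ker] at hx
  have h1 := congrArg (fun u : rootsOfUnity N K => ((u : Kˣ) : K)) hx
  exact h1

variable {K : Type*} [Field K] [CharZero K]
  {I : Type*} [Fintype I] [DecidableEq I] {E : I → Type*} [∀ i, AddCommGroup (E i)]
  [∀ i, Module K (E i)] [∀ i, FiniteDimensional K (E i)] {G : Type*} [Group G]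
  {r : ∀ i, Representation K G (E i)} {χ : G →* K} {st : I → I}
  (ω : (∀ i, E i) →ₗ[K] (∀ i, E i) →ₗ[K] K) (halt : ∀ u, ω u u = 0)
  (hnd : ∀ u, (∀ w, ω u w = 0) → u = 0)
  (hωρ : ∀ g u v, ω (piRep r g u) (piRep r g v) = χ g * ω u v)
  (hst : ∀ i, st (st i) = i)
  (hor : ∀ i j, j ≠ st i → ∀ (u : E i) (v : E j), ω (Pi.single i u) (Pi.single j v) = 0)

include hnd hωρ hst hor in
theorem det_st (g : G) (i : I) :
    LinearMap.det (r i g) * LinearMap.det (r (st i) g) = χ g ^ finrank K (E i) :=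
  det_pair (par ω i (st i)) (par_bij ω hnd st hst hor i (st i) rfl) _ _ _
    fun u v => par_sim ω hωρ i (st i) g u v

theorem det_ne (g : G) (i : I) : LinearMap.det (r i g) ≠ 0 := by
  intro h
  have h1 : LinearMap.det (r i (g * g⁻¹)) = 1 := by rw [mul_inv_cancel, map_one, map_one]
  rw [map_mul, map_mul, h, zero_mul] at h1
  exact zero_ne_one h1

/-- The multiplier of the product of a form of type `t` and determinants. -/
def mult (r : ∀ i, Representation K G (E i)) (χ : G →* K) (st : I → I) {κ : Type*} [Fintype κ]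
    (t : κ → I) (b : I → ℕ) (d : ℕ) : (G × Tor K st) →* K where
  toFun x := (∏ k, ((x.2.1 (t k) : Kˣ) : K)) *
    (∏ i, (((x.2.1 i : Kˣ) : K) ^ finrank K (E i) * LinearMap.det (r i x.1)) ^ b i) *
      ((χ x.1)⁻¹) ^ d
  map_one' := by simp
  map_mul' x y := by
    simp only [Prod.fst_mul, Prod.snd_mul, Subgroup.coe_mul, Pi.mul_apply, Units.val_mul,
      Finset.prod_mul_distrib, map_mul, mul_pow, mul_inv]
    ring

include hnd hωρ hst hor in
theorem mult_pow {κ : Type*} [Fintype κ] (t : κ → I) (a : I → ℤ)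
    (ha : ∀ i, (finrank K (E i) : ℤ) * a i = (cnt t i : ℤ) - cnt t (st i))
    (hast : ∀ i, a (st i) = -a i) (d : ℕ)
    (hd : 2 * d = ∑ i, (-a i).toNat * finrank K (E i)) (M : ℕ)
    (hM : ∀ g : G, (∏ i, LinearMap.det (r i g) ^ a i) ^ M = 1) (x : G × Tor K st) :
    mult r χ st t (fun i => (-a i).toNat) d x ^ (2 * M) = 1 := by
  have hχ : ∀ g, χ g ≠ 0 := chi_ne (χ := χ)
  have hfr := finrank_st ω hnd st hst hor
  obtain ⟨g, c⟩ := x
  -- the torus part
  have hA : ((∏ k, ((c.1 (t k) : Kˣ) : K)) *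
      ∏ i, (((c.1 i : Kˣ) : K) ^ finrank K (E i)) ^ (-a i).toNat) ^ 2 = 1 := by
    have h1 : (∏ k, ((c.1 (t k) : Kˣ) : K)) *
        ∏ i, (((c.1 i : Kˣ) : K) ^ finrank K (E i)) ^ (-a i).toNat =
        ∏ i, ((c.1 i : Kˣ) : K) ^ (cnt t i + finrank K (E i) * (-a i).toNat) := by
      rw [prod_cnt t (fun i => ((c.1 i : Kˣ) : K)), ← Finset.prod_mul_distrib]
      refine Finset.prod_congr rfl fun i _ => ?_
      rw [pow_add, pow_mul]
    have hN : ∀ i, cnt t (st i) + finrank K (E (st i)) * (-a (st i)).toNat =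
        cnt t i + finrank K (E i) * (-a i).toNat := by
      intro i
      have h2 := ha i
      rw [hfr, hast, neg_neg]
      have h3 : (a i).toNat - ((-a i).toNat : ℤ) = a i := Int.toNat_sub_toNat_neg (a i)
      have h4 : ((cnt t (st i) + finrank K (E i) * (a i).toNat : ℕ) : ℤ) =
          ((cnt t i + finrank K (E i) * (-a i).toNat : ℕ) : ℤ) := by
        push_cast
        linear_combination (finrank K (E i) : ℤ) * h3 + h2
      exact_mod_cast h4
    rw [h1, sq]
    have h5 : ∏ i, ((c.1 i : Kˣ) : K) ^ (cnt t i + finrank K (E i) * (-a i).toNat) =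
        ∏ i, ((c.1 (st i) : Kˣ) : K) ^ (cnt t i + finrank K (E i) * (-a i).toNat) := by
      refine Finset.prod_bij' (fun i _ => st i) (fun i _ => st i) (fun i _ => Finset.mem_univ _)
        (fun i _ => Finset.mem_univ _) (fun i _ => hst i) (fun i _ => hst i) ?_
      intro i _
      rw [hst, hN]
    refine (congrArg (fun z => (∏ i, ((c.1 i : Kˣ) : K) ^
      (cnt t i + finrank K (E i) * (-a i).toNat)) * z) h5).trans ?_
    rw [← Finset.prod_mul_distrib]
    refine Finset.prod_eq_one fun i _ => ?_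
    rw [← mul_pow, tor_mul, one_pow]
  -- the determinant part
  have hD : ((∏ i, LinearMap.det (r i g) ^ (-a i).toNat) * ((χ g)⁻¹) ^ d) ^ 2 =
      (∏ i, LinearMap.det (r i g) ^ a i)⁻¹ := by
    have h1 : ∏ i, LinearMap.det (r i g) ^ a i =
        (∏ i, LinearMap.det (r i g) ^ (a i).toNat) / ∏ i, LinearMap.det (r i g) ^ (-a i).toNat := by
      rw [← Finset.prod_div_distrib]
      refine Finset.prod_congr rfl fun i _ => ?_
      rw [← zpow_natCast, ← zpow_natCast, ← zpow_sub₀ (det_ne g i)]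
      congr 1
      exact (Int.toNat_sub_toNat_neg (a i)).symm
    have h2 : ∏ i, LinearMap.det (r i g) ^ (a i).toNat =
        ∏ i, LinearMap.det (r (st i) g) ^ (-a i).toNat := by
      refine Finset.prod_bij' (fun i _ => st i) (fun i _ => st i) (fun i _ => Finset.mem_univ _)
        (fun i _ => Finset.mem_univ _) (fun i _ => hst i) (fun i _ => hst i) ?_
      intro i _
      rw [hst, hast, neg_neg]
    have h3 : (∏ i, LinearMap.det (r i g) ^ (-a i).toNat) *
        ∏ i, LinearMap.det (r (st i) g) ^ (-a i).toNat = χ g ^ (2 * d) := by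
      rw [← Finset.prod_mul_distrib, hd, ← Finset.prod_pow_eq_pow_sum]
      refine Finset.prod_congr rfl fun i _ => ?_
      rw [← mul_pow, det_st ω hnd hωρ hst hor, ← pow_mul, mul_comm]
    have h4 : ∏ i, LinearMap.det (r i g) ^ (-a i).toNat ≠ 0 :=
      Finset.prod_ne_zero_iff.2 fun i _ => pow_ne_zero _ (det_ne g i)
    have h5 : ∏ i, LinearMap.det (r (st i) g) ^ (-a i).toNat ≠ 0 :=
      Finset.prod_ne_zero_iff.2 fun i _ => pow_ne_zero _ (det_ne g (st i))
    rw [h1, h2, inv_div, mul_pow, ← pow_mul, mul_comm d 2, inv_pow, ← h3]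
    field_simp
  have h1 : mult r χ st t (fun i => (-a i).toNat) d (g, c) =
      ((∏ k, ((c.1 (t k) : Kˣ) : K)) *
        ∏ i, (((c.1 i : Kˣ) : K) ^ finrank K (E i)) ^ (-a i).toNat) *
      ((∏ i, LinearMap.det (r i g) ^ (-a i).toNat) * ((χ g)⁻¹) ^ d) := by
    change (∏ k, ((c.1 (t k) : Kˣ) : K)) *
      (∏ i, (((c.1 i : Kˣ) : K) ^ finrank K (E i) * LinearMap.det (r i g)) ^ (-a i).toNat) *
        ((χ g)⁻¹) ^ d = _
    simp only [mul_pow, Finset.prod_mul_distrib]
    ring
  rw [h1, pow_mul, mul_pow, hA, hD, one_mul, inv_pow, hM, inv_one]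

end

end Pool.Agent.TH118.WC
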