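import Mathlib

/-!
# Contracting a perfect matching with determinants
-/

set_option linter.unusedSectionVars false

namespace Pool.Agent.TH118.WC

open Module

noncomputable section

variable {K : Type*} [Field K] {V : Type*} [AddCommGroup V] [Module K V]

theorem fin2_add (x : Fin 2) : x + 1 + 1 = x := by
  revert x
  decide

theorem fin2_ne (x : Fin 2) : x + 1 ≠ x := by
  revert x
  decide

theorem fin2_eq {x y : Fin 2} (h : y ≠ x) : y = x + 1 := by
  revert x y
  decide

/-- The structure of a matching which pairs every element of `S` with an element of `κ`. -/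
theorem exists_struct {M : Type*} [Fintype M] [DecidableEq M] {κ S : Type*} [Fintype κ]
    [Fintype S] [DecidableEq S] (τ : M × Fin 2 ≃ κ ⊕ S)
    (h : ∀ j, ∃ x k, τ (j, x) = Sum.inl k) (B : M → V →ₗ[K] V →ₗ[K] K) :
    ∃ (P : Finset M) (e : (P × Fin 2) ⊕ S ≃ κ) (c : S → M) (t : S → Bool),
      ∀ (v : κ → V) (w : S → V),
      ∏ j, B j (Sum.elim v w (τ (j, 0))) (Sum.elim v w (τ (j, 1))) =
        (∏ j : P, B j (v (e (Sum.inl (j, 0)))) (v (e (Sum.inl (j, 1))))) *
          ∏ s, (if t s then B (c s) else (B (c s)).flip) (v (e (Sum.inr s))) (w s) := by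
  classical
  let P : Finset M := Finset.univ.filter (fun j => ∀ x, ∃ k, τ (j, x) = Sum.inl k)
  let c : S → M := fun s => (τ.symm (Sum.inr s)).1
  let x : S → Fin 2 := fun s => (τ.symm (Sum.inr s)).2
  have hcx : ∀ s, τ (c s, x s) = Sum.inr s := fun s => τ.apply_symm_apply _
  have hpart : ∀ s, ∃ k, τ (c s, x s + 1) = Sum.inl k := by
    intro s
    obtain ⟨y, k, hy⟩ := h (c s)
    by_cases hyx : y = x s
    · rw [hyx, hcx] at hy
      exact absurd hy (by simp)
    · rw [fin2_eq hyx] at hy
      exact ⟨k, hy⟩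
  choose pk hpk using hpart
  have hP : ∀ j : P, ∀ y, ∃ k, τ (j, y) = Sum.inl k := fun j => (Finset.mem_filter.1 j.2).2
  choose pp hpp using hP
  let g : (P × Fin 2) ⊕ S → κ := Sum.elim (fun a => pp a.1 a.2) pk
  have hg1 : ∀ a : P × Fin 2, τ (a.1, a.2) = Sum.inl (g (Sum.inl a)) := fun a => hpp a.1 a.2
  have hg2 : ∀ s, τ (c s, x s + 1) = Sum.inl (g (Sum.inr s)) := hpk
  have hcP : ∀ s, c s ∉ P := by
    intro s hs
    obtain ⟨k, hk⟩ := (Finset.mem_filter.1 hs).2 (x s)
    rw [hcx] at hk
    exact absurd hk (by simp)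
  have hcinj : ∀ s s', c s = c s' → s = s' := by
    intro s s' hss
    by_cases hx : x s = x s'
    · have h1 : τ (c s, x s) = τ (c s', x s') := by rw [hss, hx]
      rw [hcx, hcx] at h1
      exact Sum.inr.inj h1
    · exfalso
      have h1 := hcx s
      rw [fin2_eq hx, hss, hpk] at h1
      exact absurd h1 (by simp)
  have hginj : Function.Injective g := by
    rintro (a | s) (b | s') hab
    · have h1 := hg1 a
      rw [hab, ← hg1 b] at h1
      have h2 := τ.injective h1
      rw [Prod.mk.injEq] at h2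
      have h3 : a = b := Prod.ext (Subtype.ext h2.1) h2.2
      rw [h3]
    · exfalso
      have h1 := hg1 a
      rw [hab, ← hg2 s'] at h1
      have h2 := τ.injective h1
      rw [Prod.mk.injEq] at h2
      apply hcP s'
      rw [← h2.1]
      exact a.1.2
    · exfalso
      have h1 := hg2 s
      rw [hab, ← hg1 b] at h1
      have h2 := τ.injective h1
      rw [Prod.mk.injEq] at h2
      apply hcP s
      rw [h2.1]
      exact b.1.2
    · have h1 := hg2 s
      rw [hab, ← hg2 s'] at h1
      have h2 := τ.injective h1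
      rw [Prod.mk.injEq] at h2
      rw [hcinj _ _ h2.1]
  have hgsur : Function.Surjective g := by
    intro k
    obtain ⟨⟨j, y⟩, hjy⟩ : ∃ a, τ a = Sum.inl k := ⟨τ.symm (Sum.inl k), τ.apply_symm_apply _⟩
    by_cases hj : j ∈ P
    · refine ⟨Sum.inl (⟨j, hj⟩, y), ?_⟩
      have h1 := hg1 (⟨j, hj⟩, y)
      rw [hjy] at h1
      exact (Sum.inl.inj h1).symm
    · have h1 : ∃ y', ∀ k, τ (j, y') ≠ Sum.inl k := by
        by_contra hcon
        push Not at hcon
        exact hj (Finset.mem_filter.2 ⟨Finset.mem_univ _, hcon⟩)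
      obtain ⟨y', hy'⟩ := h1
      obtain ⟨s, hs⟩ : ∃ s, τ (j, y') = Sum.inr s := by
        rcases hτ : τ (j, y') with k' | s
        · exact absurd hτ (hy' k')
        · exact ⟨s, rfl⟩
      have h2 : τ.symm (Sum.inr s) = (j, y') := by rw [← hs, τ.symm_apply_apply]
      have h3 : c s = j := congrArg Prod.fst h2
      have h4 : x s = y' := congrArg Prod.snd h2
      refine ⟨Sum.inr s, ?_⟩
      have h5 : y = y' + 1 := by
        refine fin2_eq fun h6 => ?_
        rw [h6, hs] at hjy
        exact absurd hjy (by simp)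
      have h6 := hg2 s
      rw [h3, h4, ← h5, hjy] at h6
      exact (Sum.inl.inj h6).symm
  let e := Equiv.ofBijective g ⟨hginj, hgsur⟩
  refine ⟨P, e, c, fun s => decide (x s = 1), fun v w => ?_⟩
  rw [← Finset.prod_mul_prod_compl P]
  congr 1
  · rw [← Finset.prod_coe_sort P]
    refine Finset.prod_congr rfl fun j _ => ?_
    rw [hg1 (j, 0), hg1 (j, 1)]
    rfl
  · symm
    refine Finset.prod_bij (fun s _ => c s) ?_ ?_ ?_ ?_
    · intro s _
      rw [Finset.mem_compl]
      exact hcP s
    · intro s _ s' _ hss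
      exact hcinj _ _ hss
    · intro j hj
      rw [Finset.mem_compl] at hj
      have h1 : ∃ y', ∀ k, τ (j, y') ≠ Sum.inl k := by
        by_contra hcon
        push Not at hcon
        exact hj (Finset.mem_filter.2 ⟨Finset.mem_univ _, hcon⟩)
      obtain ⟨y', hy'⟩ := h1
      obtain ⟨s, hs⟩ : ∃ s, τ (j, y') = Sum.inr s := by
        rcases hτ : τ (j, y') with k' | s
        · exact absurd hτ (hy' k')
        · exact ⟨s, rfl⟩
      have h2 : τ.symm (Sum.inr s) = (j, y') := by rw [← hs, τ.symm_apply_apply]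
      exact ⟨s, Finset.mem_univ _, congrArg Prod.fst h2⟩
    · intro s _
      have h1 := hcx s
      have h2 := hg2 s
      by_cases hx : x s = 1
      · rw [hx] at h1 h2
        have h3 : (1 : Fin 2) + 1 = 0 := rfl
        rw [h3] at h2
        rw [h1, h2, if_pos (by simpa using hx)]
        rfl
      · have hx' : x s = 0 := by
          have h4 := fin2_eq (x := 1) (y := x s) hx
          rw [h4]
          rfl
        rw [hx'] at h1 h2
        have h3 : (0 : Fin 2) + 1 = 1 := rfl
        rw [h3] at h2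
        rw [h1, h2, if_neg (by simpa using hx)]
        rfl

/-- Antisymmetrisation gives determinants. -/
theorem sum_sign {Q : Type*} [Fintype Q] [DecidableEq Q] (n : Q → ℕ)
    (F : ∀ q, Fin (n q) → Fin (n q) → K) :
    ∑ π : ∀ q, Equiv.Perm (Fin (n q)), (∏ q, ((Equiv.Perm.sign (π q) : ℤ) : K)) *
      ∏ s : Σ q, Fin (n q), F s.1 s.2 (π s.1 s.2) =
    ∏ q, Matrix.det (Matrix.of (F q)) := by
  have h1 : ∀ q, Matrix.det (Matrix.of (F q)) = ∑ σ : Equiv.Perm (Fin (n q)),
      ((Equiv.Perm.sign σ : ℤ) : K) * ∏ s, F q s (σ s) := by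
    intro q
    rw [← Matrix.det_transpose, Matrix.det_apply']
    rfl
  rw [Finset.prod_congr rfl (fun q _ => h1 q), Finset.prod_univ_sum, Fintype.piFinset_univ]
  refine Finset.sum_congr rfl fun π _ => ?_
  rw [Finset.prod_mul_distrib, Fintype.prod_sigma]

end

end Pool.Agent.TH118.WC
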