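import Mathlib

/-!
# Products of multilinear forms
-/

set_option linter.unusedSectionVars false

namespace Pool.Agent.TH118.WC

open Module

noncomputable section

variable {K : Type*} [Field K] {V : Type*} [AddCommGroup V] [Module K V]

/-- The product of two forms in disjoint sets of variables. -/
def sumMul {κ S : Type*} (F : MultilinearMap K (fun _ : κ => V) K)
    (G : MultilinearMap K (fun _ : S => V) K) : MultilinearMap K (fun _ : κ ⊕ S => V) K where
  toFun v := F (fun k => v (Sum.inl k)) * G (fun s => v (Sum.inr s))
  map_update_add' := by
    classical
    intro inst v x a b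
    have h1 : ∀ (k : κ) (c : V), (fun l => Function.update v (Sum.inl k) c (Sum.inl l)) =
        Function.update (fun l => v (Sum.inl l)) k c := by
      intro k c
      funext l
      by_cases h : l = k
      · subst h
        rw [Function.update_self, Function.update_self]
      · rw [Function.update_of_ne h, Function.update_of_ne (by simpa using h)]
    have h2 : ∀ (k : κ) (c : V), (fun l => Function.update v (Sum.inl k) c (Sum.inr l)) =
        fun l => v (Sum.inr l) := by
      intro k c
      funext l
      rw [Function.update_of_ne (by simp)]
    have h3 : ∀ (k : S) (c : V), (fun l => Function.update v (Sum.inr k) c (Sum.inr l)) =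
        Function.update (fun l => v (Sum.inr l)) k c := by
      intro k c
      funext l
      by_cases h : l = k
      · subst h
        rw [Function.update_self, Function.update_self]
      · rw [Function.update_of_ne h, Function.update_of_ne (by simpa using h)]
    have h4 : ∀ (k : S) (c : V), (fun l => Function.update v (Sum.inr k) c (Sum.inl l)) =
        fun l => v (Sum.inl l) := by
      intro k c
      funext l
      rw [Function.update_of_ne (by simp)]
    have e : inst = Classical.decEq _ := Subsingleton.elim _ _
    subst e
    rcases x with k | k
    · rw [h1, h1, h1, h2, h2, h2, MultilinearMap.map_update_add, add_mul]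
    · rw [h3, h3, h3, h4, h4, h4, MultilinearMap.map_update_add, mul_add]
  map_update_smul' := by
    classical
    intro inst v x a b
    have h1 : ∀ (k : κ) (c : V), (fun l => Function.update v (Sum.inl k) c (Sum.inl l)) =
        Function.update (fun l => v (Sum.inl l)) k c := by
      intro k c
      funext l
      by_cases h : l = k
      · subst h
        rw [Function.update_self, Function.update_self]
      · rw [Function.update_of_ne h, Function.update_of_ne (by simpa using h)]
    have h2 : ∀ (k : κ) (c : V), (fun l => Function.update v (Sum.inl k) c (Sum.inr l)) =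
        fun l => v (Sum.inr l) := by
      intro k c
      funext l
      rw [Function.update_of_ne (by simp)]
    have h3 : ∀ (k : S) (c : V), (fun l => Function.update v (Sum.inr k) c (Sum.inr l)) =
        Function.update (fun l => v (Sum.inr l)) k c := by
      intro k c
      funext l
      by_cases h : l = k
      · subst h
        rw [Function.update_self, Function.update_self]
      · rw [Function.update_of_ne h, Function.update_of_ne (by simpa using h)]
    have h4 : ∀ (k : S) (c : V), (fun l => Function.update v (Sum.inr k) c (Sum.inl l)) =
        fun l => v (Sum.inl l) := by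
      intro k c
      funext l
      rw [Function.update_of_ne (by simp)]
    have e : inst = Classical.decEq _ := Subsingleton.elim _ _
    subst e
    rcases x with k | k
    · rw [h1, h1, h2, h2, MultilinearMap.map_update_smul, smul_eq_mul, smul_eq_mul, mul_assoc]
    · rw [h3, h3, h4, h4, MultilinearMap.map_update_smul, smul_eq_mul, smul_eq_mul]
      ring

theorem sumMul_apply {κ S : Type*} (F : MultilinearMap K (fun _ : κ => V) K)
    (G : MultilinearMap K (fun _ : S => V) K) (v : κ ⊕ S → V) :
    sumMul F G v = F (fun k => v (Sum.inl k)) * G (fun s => v (Sum.inr s)) := rfl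

/-- The product of a family of forms in disjoint sets of variables. -/
def sigProd {Q : Type*} [Fintype Q] {n : Q → ℕ}
    (D : ∀ q, MultilinearMap K (fun _ : Fin (n q) => V) K) :
    MultilinearMap K (fun _ : (Σ q, Fin (n q)) => V) K where
  toFun w := ∏ q, D q (fun s => w ⟨q, s⟩)
  map_update_add' := by
    classical
    intro inst v x a b
    obtain ⟨q, s⟩ := x
    have h1 : ∀ c : V, (fun s' => Function.update v ⟨q, s⟩ c ⟨q, s'⟩) =
        Function.update (fun s' => v ⟨q, s'⟩) s c := by
      intro c
      funext s'
      by_cases h : s' = s
      · subst h
        rw [Function.update_self, Function.update_self]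
      · rw [Function.update_of_ne h, Function.update_of_ne (by simpa using h)]
    have h2 : ∀ q', q' ≠ q → ∀ c : V, (fun s' => Function.update v ⟨q, s⟩ c ⟨q', s'⟩) =
        fun s' => v ⟨q', s'⟩ := by
      intro q' hq c
      funext s'
      rw [Function.update_of_ne]
      intro h
      exact hq (congrArg Sigma.fst h)
    rw [← Finset.mul_prod_erase _ _ (Finset.mem_univ q),
      ← Finset.mul_prod_erase _ _ (Finset.mem_univ q),
      ← Finset.mul_prod_erase _ _ (Finset.mem_univ q), h1, h1, h1,
      MultilinearMap.map_update_add, add_mul]
    congr 1
    · congr 1
      refine Finset.prod_congr rfl fun q' hq' => ?_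
      rw [h2 q' (Finset.ne_of_mem_erase hq'), h2 q' (Finset.ne_of_mem_erase hq')]
    · congr 1
      refine Finset.prod_congr rfl fun q' hq' => ?_
      rw [h2 q' (Finset.ne_of_mem_erase hq'), h2 q' (Finset.ne_of_mem_erase hq')]
  map_update_smul' := by
    classical
    intro inst v x a b
    obtain ⟨q, s⟩ := x
    have h1 : ∀ c : V, (fun s' => Function.update v ⟨q, s⟩ c ⟨q, s'⟩) =
        Function.update (fun s' => v ⟨q, s'⟩) s c := by
      intro c
      funext s'
      by_cases h : s' = s
      · subst h
        rw [Function.update_self, Function.update_self]
      · rw [Function.update_of_ne h, Function.update_of_ne (by simpa using h)]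
    have h2 : ∀ q', q' ≠ q → ∀ c : V, (fun s' => Function.update v ⟨q, s⟩ c ⟨q', s'⟩) =
        fun s' => v ⟨q', s'⟩ := by
      intro q' hq c
      funext s'
      rw [Function.update_of_ne]
      intro h
      exact hq (congrArg Sigma.fst h)
    rw [← Finset.mul_prod_erase _ _ (Finset.mem_univ q),
      ← Finset.mul_prod_erase _ _ (Finset.mem_univ q), h1, h1,
      MultilinearMap.map_update_smul, smul_eq_mul, smul_eq_mul, mul_assoc]
    congr 2
    refine Finset.prod_congr rfl fun q' hq' => ?_
    rw [h2 q' (Finset.ne_of_mem_erase hq'), h2 q' (Finset.ne_of_mem_erase hq')]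

theorem sigProd_apply {Q : Type*} [Fintype Q] {n : Q → ℕ}
    (D : ∀ q, MultilinearMap K (fun _ : Fin (n q) => V) K) (w : (Σ q, Fin (n q)) → V) :
    sigProd D w = ∏ q, D q (fun s => w ⟨q, s⟩) := rfl

/-- Evaluation at some of the variables. -/
def evS {κ S : Type*} (w : S → V) : MultilinearMap K (fun _ : κ ⊕ S => V) K →ₗ[K]
    MultilinearMap K (fun _ : κ => V) K where
  toFun Ψ :=
    { toFun := fun v => Ψ (Sum.elim v w)
      map_update_add' := by
        classical
        intro inst v k a b
        have e : inst = Classical.decEq _ := Subsingleton.elim _ _
        subst e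
        rw [← Sum.update_elim_inl, ← Sum.update_elim_inl, ← Sum.update_elim_inl,
          MultilinearMap.map_update_add]
      map_update_smul' := by
        classical
        intro inst v k a b
        have e : inst = Classical.decEq _ := Subsingleton.elim _ _
        subst e
        rw [← Sum.update_elim_inl, ← Sum.update_elim_inl, MultilinearMap.map_update_smul] }
  map_add' _ _ := rfl
  map_smul' _ _ := rfl

theorem evS_apply {κ S : Type*} (w : S → V) (Ψ : MultilinearMap K (fun _ : κ ⊕ S => V) K)
    (v : κ → V) : evS w Ψ v = Ψ (Sum.elim v w) := rfl

end

end Pool.Agent.TH118.WC
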