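import Mathlib
import Pool.Agent.H86.CMLib.TH118.WC.Char
import Pool.Agent.H86.CMLib.TH118.WC.Match
import Pool.Agent.H86.CMLib.TH118.WC.Multi

/-!
# Tate forms on a multiplicity free sum
-/

set_option linter.unusedSectionVars false

namespace Pool.Agent.TH118.WC

open Module Pool.Agent.H204R3.SP Pool.Agent.H204R3.GP Pool.Agent.W522.U

noncomputable section

theorem tate2_flip {Ω V Γ : Type*} [Field Ω] [AddCommGroup V] [Module Ω V] [Group Γ]
    {ρ : Representation Ω Γ V} {χ : Γ →* Ω} {B : V →ₗ[Ω] V →ₗ[Ω] Ω} (h : IsTate2 ρ χ B) :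
    IsTate2 ρ χ B.flip := by
  obtain ⟨Δ, hΔ, h⟩ := h
  exact ⟨Δ, hΔ, fun s hs u v => h s hs v u⟩

variable {K : Type} [Field K] [CharZero K]
  {I : Type} [Fintype I] [DecidableEq I] {E : I → Type} [∀ i, AddCommGroup (E i)]
  [∀ i, Module K (E i)] [∀ i, FiniteDimensional K (E i)] {G : Type} [Group G]

/-- Products of bilinear Tate forms and determinants. -/
def PiDet (r : ∀ i, Representation K G (E i)) (χ : G →* K) (st : I → I) (m : ℕ) :
    Set (MultilinearMap K (fun _ : Fin m × Fin 2 => ∀ i, E i) K) :=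
  {φ | ∃ (P Q : Type) (_ : Fintype P) (_ : Fintype Q) (i : Q → I)
    (e : (P × Fin 2) ⊕ (Σ q, Fin (finrank K (E (i q)))) ≃ Fin m × Fin 2)
    (B : P → (∀ i, E i) →ₗ[K] (∀ i, E i) →ₗ[K] K)
    (C : ∀ q, Fin (finrank K (E (i q))) → (∀ i, E i) →ₗ[K] (∀ i, E i) →ₗ[K] K),
    (∀ p, IsTate2 (piRep r) χ (B p)) ∧ (∀ q s, IsTate2 (piRep r) χ (C q s)) ∧
    (∀ q q', st (i q) ≠ i q') ∧
    (∃ (d : ℕ) (Δ : Subgroup G), Δ.FiniteIndex ∧ 2 * d = ∑ q, finrank K (E (i q)) ∧
      ∀ g ∈ Δ, ∏ q, LinearMap.det (r (i q) g) = χ g ^ d) ∧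
    ∀ v, φ v = (∏ p, B p (v (e (Sum.inl (p, 0)))) (v (e (Sum.inl (p, 1))))) *
      ∏ q, Matrix.det (Matrix.of fun s s' => C q s (v (e (Sum.inr ⟨q, s⟩)))
        (Pi.single (i q) (finBasis K (E (i q)) s')))}

variable {r : ∀ i, Representation K G (E i)} {χ : G →* K} {st : I → I}
  (ω : (∀ i, E i) →ₗ[K] (∀ i, E i) →ₗ[K] K) (halt : ∀ u, ω u u = 0)
  (hnd : ∀ u, (∀ w, ω u w = 0) → u = 0)
  (hωρ : ∀ g u v, ω (piRep r g u) (piRep r g v) = χ g * ω u v)
  (hst : ∀ i, st (st i) = i)
  (hor : ∀ i j, j ≠ st i → ∀ (u : E i) (v : E j), ω (Pi.single i u) (Pi.single j v) = 0)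
  (htw : ∀ i j, i ≠ j → 2 ≤ finrank K (E i) → 2 ≤ finrank K (E j) →
    ∀ (T : E i →ₗ[K] E j) (ψ : G → K), (∀ g u, T (r i g u) = ψ g • r j g (T u)) → T = 0)
  (hirr : ∀ i, Irr (r i))
  (hnil : ∀ i, 2 ≤ finrank K (E i) → ∃ N ∈ lieT (piRep r) χ, N * N = 0 ∧
    ∃ (u : E i) (φ : Dual K (E i)), u ≠ 0 ∧ φ ≠ 0 ∧ ∀ x, N (Pi.single i x) i = φ x • u)
  (hpos : ∀ i, 0 < finrank K (E i))

include halt hnd hωρ hst hor htw hirr hnil hpos in
/-- Forms of one type. -/
theorem type_mem [IsAlgClosed K] {m : ℕ}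
    (φ : MultilinearMap K (fun _ : Fin m × Fin 2 => ∀ i, E i) K) (hφ : IsTate (piRep r) χ m φ)
    (t : Fin m × Fin 2 → I) :
    φ.compLinearMap (fun k => (LinearMap.single K E (t k)).comp (LinearMap.proj (t k))) ∈
      Submodule.span K (PiDet r χ st m) := by
  classical
  set φt := φ.compLinearMap
    (fun k => (LinearMap.single K E (t k)).comp (LinearMap.proj (t k))) with hφt
  have hφt' : ∀ v, φt v = φ (fun k => Pi.single (t k) (v k (t k))) := fun v => rfl
  by_cases h0 : φt = 0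
  · rw [h0]
    exact Submodule.zero_mem _
  obtain ⟨v₀, hv₀⟩ : ∃ v, φt v ≠ 0 := by
    by_contra hcon
    push Not at hcon
    exact h0 (MultilinearMap.ext hcon)
  obtain ⟨Δ, hΔ, hφΔ⟩ := id hφ
  obtain ⟨a, ha, hast, heven⟩ := exists_exponents ω halt hnd hωρ hst hor htw hirr hnil hpos φ hφ t
    (fun k => v₀ k (t k)) hv₀
  obtain ⟨d, hd⟩ := heven
  rw [← two_mul] at hd
  set M := Δ.normalCore.index with hMdef
  have hM0 : 0 < M := by
    have : Δ.normalCore.FiniteIndex := inferInstance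
    exact Nat.pos_of_ne_zero this.index_ne_zero
  have hM : ∀ g : G, (∏ i, LinearMap.det (r i g) ^ a i) ^ M = 1 := by
    intro g
    exact det_rel ω halt hnd hωρ st hst hor htw (fun i _ => hirr i) hnil g φ Δ hΔ hφΔ _
      (Δ.normalCore_le (Δ.normalCore.pow_index_mem g)) t (fun k => v₀ k (t k)) hv₀ a ha
  let b : I → ℕ := fun i => (-a i).toNat
  obtain ⟨Δ₁, hΔ₁, hmult⟩ := fi_of_pow (mult r χ st t b d) (2 * M) (by omega)
    (mult_pow ω hnd hωρ hst hor t a ha hast d hd.symm M hM)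
  -- the determinants
  let Q : Type := Σ i : I, Fin (b i)
  let n : Q → ℕ := fun q => finrank K (E q.1)
  let D : ∀ q : Q, MultilinearMap K (fun _ : Fin (n q) => ∀ i, E i) K := fun q =>
    ((finBasis K (E q.1)).det.toMultilinearMap).compLinearMap (fun _ => LinearMap.proj q.1)
  have hD : ∀ q w, D q w = (finBasis K (E q.1)).det (fun s => w s q.1) := fun q w => rfl
  let Φ : MultilinearMap K (fun _ : (Fin m × Fin 2) ⊕ (Σ q, Fin (n q)) => ∀ i, E i) K :=
    sumMul φt (sigProd D)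
  have hcardS : Fintype.card (Σ q, Fin (n q)) = 2 * d := by
    rw [Fintype.card_sigma, ← hd]
    simp only [Fintype.card_fin]
    rw [Fintype.sum_sigma]
    refine Finset.sum_congr rfl fun i _ => ?_
    change ∑ _y : Fin (b i), finrank K (E i) = _
    rw [Finset.sum_const, Finset.card_univ, Fintype.card_fin, smul_eq_mul]
  let E' : (Fin m × Fin 2) ⊕ (Σ q, Fin (n q)) ≃ Fin (m + d) × Fin 2 :=
    Fintype.equivOfCardEq (by
      rw [Fintype.card_sum, hcardS, Fintype.card_prod, Fintype.card_prod, Fintype.card_fin,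
        Fintype.card_fin, Fintype.card_fin]
      ring)
  let Φ' : MultilinearMap K (fun _ : Fin (m + d) × Fin 2 => ∀ i, E i) K := Φ.domDomCongr E'
  have hΦ' : ∀ v, Φ' v = φt (fun k => v (E' (Sum.inl k))) *
      ∏ q, D q (fun s => v (E' (Sum.inr ⟨q, s⟩))) := fun v => rfl
  have htate : IsTate (piRep (rt r st)) (ct χ st) (m + d) Φ' := by
    refine ⟨Δ.comap (MonoidHom.fst G (Tor K st)) ⊓ Δ₁, ?_, ?_⟩
    · have := fi_comap (MonoidHom.fst G (Tor K st)) Δ hΔ
      exact inferInstance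
    rintro x ⟨hx1, hx2⟩ v
    rw [hΦ', hΦ']
    have h1 : φt (fun k => piRep (rt r st) x (v (E' (Sum.inl k)))) =
        (∏ k, ((x.2.1 (t k) : Kˣ) : K)) * (χ x.1 ^ m * φt (fun k => v (E' (Sum.inl k)))) := by
      rw [hφt', hφt']
      have h2 := hφΔ x.1 hx1 (fun k => Pi.single (t k) (v (E' (Sum.inl k)) (t k)))
      rw [← h2, ← smul_eq_mul, ← MultilinearMap.map_smul_univ]
      congr 1
      funext k
      rw [piRep_apply, rt_apply, piRep_single, ← Pi.single_smul]
    have h2 : ∀ q : Q, D q (fun s => piRep (rt r st) x (v (E' (Sum.inr ⟨q, s⟩)))) =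
        ((((x.2.1 q.1 : Kˣ) : K) ^ finrank K (E q.1)) * LinearMap.det (r q.1 x.1)) *
          D q (fun s => v (E' (Sum.inr ⟨q, s⟩))) := by
      intro q
      rw [hD, hD]
      have h3 := (finBasis K (E q.1)).det_comp (rt r st q.1 x)
        (fun s => v (E' (Sum.inr ⟨q, s⟩)) q.1)
      have h4 : LinearMap.det (rt r st q.1 x) =
          (((x.2.1 q.1 : Kˣ) : K) ^ finrank K (E q.1)) * LinearMap.det (r q.1 x.1) := by
        change LinearMap.det (((x.2.1 q.1 : Kˣ) : K) • r q.1 x.1) = _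
        rw [LinearMap.det_smul]
      rw [← h4, ← h3]
      rfl
    rw [h1, Finset.prod_congr rfl (fun q _ => h2 q), Finset.prod_mul_distrib]
    have h3 : ∏ q : Q, ((((x.2.1 q.1 : Kˣ) : K) ^ finrank K (E q.1)) *
        LinearMap.det (r q.1 x.1)) = ∏ i, ((((x.2.1 i : Kˣ) : K) ^ finrank K (E i)) *
        LinearMap.det (r i x.1)) ^ b i := by
      rw [Fintype.prod_sigma]
      refine Finset.prod_congr rfl fun i _ => ?_
      change ∏ _y : Fin (b i), ((((x.2.1 i : Kˣ) : K) ^ finrank K (E i)) *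
        LinearMap.det (r i x.1)) = _
      rw [Finset.prod_const, Finset.card_univ, Fintype.card_fin]
    have h4 := hmult x hx2
    change (∏ k, ((x.2.1 (t k) : Kˣ) : K)) *
      (∏ i, (((x.2.1 i : Kˣ) : K) ^ finrank K (E i) * LinearMap.det (r i x.1)) ^ b i) *
        ((χ x.1)⁻¹) ^ d = 1 at h4
    rw [h3, ct_apply, pow_add]
    have hχ : χ x.1 ^ d ≠ 0 := pow_ne_zero _ (chi_ne (χ := χ) x.1)
    rw [inv_pow, mul_inv_eq_one₀ hχ] at h4
    rw [← h4]
    ring
  have hspan := main_rt ω halt hnd hωρ hst hor htw hirr hnil hpos Φ' htate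
  -- the signs
  let w : (∀ q : Q, Equiv.Perm (Fin (n q))) → (Σ q, Fin (n q)) → ∀ i, E i := fun π s =>
    Pi.single s.1.1 (finBasis K (E s.1.1) (π s.1 s.2))
  let sg : (∀ q : Q, Equiv.Perm (Fin (n q))) → K := fun π =>
    ∏ q, ((Equiv.Perm.sign (π q) : ℤ) : K)
  have hb : ∀ q : Q, a q.1 < 0 := by
    rintro ⟨i, x⟩
    have h1 := x.2
    change (x : ℕ) < (-a i).toNat at h1
    change a i < 0
    omega
  have hno : ∀ q q' : Q, st q.1 ≠ q'.1 := by
    intro q q' h
    have h1 := hb q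
    have h2 := hb q'
    rw [← h, hast] at h2
    omega
  have hL : ∀ Ψ ∈ Submodule.span K (PT (piRep (rt r st)) (ct χ st) (m + d)),
      ∃ ψ ∈ Submodule.span K (PiDet r χ st m), ∀ v, ψ v =
        ∑ π, sg π * Ψ (fun x => Sum.elim v (w π) (E'.symm x)) := by
    intro Ψ hΨ
    induction hΨ using Submodule.span_induction with
    | zero => exact ⟨0, Submodule.zero_mem _, fun v => by simp⟩
    | add x y _ _ hx hy =>
      obtain ⟨ψ, h1, h2⟩ := hx
      obtain ⟨ψ', h1', h2'⟩ := hy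
      refine ⟨ψ + ψ', Submodule.add_mem _ h1 h1', fun v => ?_⟩
      rw [_root_.add_apply, h2, h2', ← Finset.sum_add_distrib]
      refine Finset.sum_congr rfl fun π _ => ?_
      rw [_root_.add_apply, mul_add]
    | smul c x _ hx =>
      obtain ⟨ψ, h1, h2⟩ := hx
      refine ⟨c • ψ, Submodule.smul_mem _ _ h1, fun v => ?_⟩
      rw [_root_.smul_apply, h2, smul_eq_mul, Finset.mul_sum]
      refine Finset.sum_congr rfl fun π _ => ?_
      rw [_root_.smul_apply, smul_eq_mul]
      ring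
    | mem Ψ hΨ =>
      obtain ⟨σ, B, hB, rfl⟩ := hΨ
      let τ : Fin (m + d) × Fin 2 ≃ (Fin m × Fin 2) ⊕ (Σ q, Fin (n q)) := σ.trans E'.symm
      have hmm : ∀ u : (Fin m × Fin 2) ⊕ (Σ q, Fin (n q)) → ∀ i, E i, mmG σ B (fun x => u (E'.symm x)) =
          ∏ j, B j (u (τ (j, 0))) (u (τ (j, 1))) := fun u => rfl
      by_cases h : ∀ j, ∃ x k, τ (j, x) = Sum.inl k
      · obtain ⟨P, e, c, tt, hf⟩ := exists_struct τ h B
        let ψ : MultilinearMap K (fun _ : Fin m × Fin 2 => ∀ i, E i) K :=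
          ∑ π, sg π • evS (w π) ((mmG σ B).domDomCongr E'.symm)
        have hψ : ∀ v, ψ v = ∑ π, sg π * mmG σ B (fun x => Sum.elim v (w π) (E'.symm x)) := by
          intro v
          simp only [ψ]
          rw [_root_.sum_apply]
          rfl
        refine ⟨ψ, Submodule.subset_span ?_, hψ⟩
        refine ⟨P, Q, inferInstance, inferInstance, Sigma.fst, e, fun p => B p,
          fun q s => if tt ⟨q, s⟩ then B (c ⟨q, s⟩) else (B (c ⟨q, s⟩)).flip,
          fun p => tate2_small (hB p), fun q s => ?_, hno, ⟨d, ?_, ?_, ?_, ?_⟩, fun v => ?_⟩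
        · change IsTate2 (piRep r) χ (if tt ⟨q, s⟩ = true then B (c ⟨q, s⟩)
            else (B (c ⟨q, s⟩)).flip)
          split_ifs
          · exact tate2_small (hB _)
          · exact tate2_flip (tate2_small (hB _))
        · exact Δ₁.comap (MonoidHom.inl G (Tor K st))
        · exact fi_comap _ _ hΔ₁
        · rw [← hcardS, Fintype.card_sigma]
          simp only [Fintype.card_fin]
          rfl
        · intro g hg
          have h4 := hmult (g, 1) hg
          change (∏ k, (((1 : Tor K st).1 (t k) : Kˣ) : K)) *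
            (∏ i, ((((1 : Tor K st).1 i : Kˣ) : K) ^ finrank K (E i) *
              LinearMap.det (r i g)) ^ b i) * ((χ g)⁻¹) ^ d = 1 at h4
          have h5 : ∀ i, (((1 : Tor K st).1 i : Kˣ) : K) = 1 := fun i => rfl
          simp only [h5, one_pow, one_mul, Finset.prod_const_one] at h4
          have hχ : χ g ^ d ≠ 0 := pow_ne_zero _ (chi_ne (χ := χ) g)
          rw [inv_pow, mul_inv_eq_one₀ hχ] at h4
          rw [← h4, Fintype.prod_sigma]
          refine Finset.prod_congr rfl fun i _ => ?_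
          change ∏ _y : Fin (b i), LinearMap.det (r i g) = _
          rw [Finset.prod_const, Finset.card_univ, Fintype.card_fin]
        · rw [hψ]
          simp only [hmm, hf]
          rw [← sum_sign (Q := Q) n (fun q s s' => (if tt ⟨q, s⟩ then B (c ⟨q, s⟩)
            else (B (c ⟨q, s⟩)).flip) (v (e (Sum.inr ⟨q, s⟩)))
              (Pi.single q.1 (finBasis K (E q.1) s'))), Finset.mul_sum]
          refine Finset.sum_congr rfl fun π _ => ?_
          simp only [sg, w]
          ring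
      · push Not at h
        obtain ⟨j, hj⟩ := h
        refine ⟨0, Submodule.zero_mem _, fun v => ?_⟩
        rw [_root_.zero_apply]
        symm
        refine Finset.sum_eq_zero fun π _ => ?_
        rw [hmm, Finset.prod_eq_zero (Finset.mem_univ j), mul_zero]
        obtain ⟨s, hs⟩ : ∃ s, τ (j, 0) = Sum.inr s := by
          rcases hτ : τ (j, 0) with k' | s
          · exact absurd hτ (hj 0 k')
          · exact ⟨s, rfl⟩
        obtain ⟨s', hs'⟩ : ∃ s, τ (j, 1) = Sum.inr s := by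
          rcases hτ : τ (j, 1) with k' | s
          · exact absurd hτ (hj 1 k')
          · exact ⟨s, rfl⟩
        rw [hs, hs']
        change B j (Pi.single s.1.1 _) (Pi.single s'.1.1 _) = 0
        refine tate2_orth hst (hB j) (fun h1 => hno s.1 s'.1 h1.symm) (Or.inl ?_) _ _
        exact fun h1 => hno s.1 s.1 h1
  obtain ⟨ψ, hψ, hψ'⟩ := hL Φ' hspan
  -- the value
  have hval : ∀ v, ψ v = (Fintype.card (∀ q : Q, Equiv.Perm (Fin (n q))) : K) * φt v := by
    intro v
    rw [hψ', ← Finset.card_univ, ← nsmul_eq_mul, ← Finset.sum_const]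
    refine Finset.sum_congr rfl fun π _ => ?_
    rw [hΦ']
    simp only [Equiv.symm_apply_apply, Sum.elim_inl, Sum.elim_inr]
    have h1 : ∀ q : Q, D q (fun s => w π ⟨q, s⟩) = ((Equiv.Perm.sign (π q) : ℤ) : K) := by
      intro q
      rw [hD]
      have h2 : (fun s => w π ⟨q, s⟩ q.1) = (finBasis K (E q.1)) ∘ (π q) := by
        funext s
        change (Pi.single q.1 (finBasis K (E q.1) (π q s)) : ∀ i, E i) q.1 = _
        rw [Pi.single_eq_same]
        rfl
      rw [h2, AlternatingMap.map_perm, Basis.det_self]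
      change (Equiv.Perm.sign (π q) : ℤˣ) • (1 : K) = _
      rw [Units.smul_def, zsmul_eq_mul, mul_one]
    rw [Finset.prod_congr rfl (fun q _ => h1 q)]
    have h3 : sg π * sg π = 1 := by
      simp only [sg]
      rw [← Finset.prod_mul_distrib]
      refine Finset.prod_eq_one fun q _ => ?_
      rw [← Int.cast_mul, ← Units.val_mul, ← sq, Int.units_sq]
      simp
    change sg π * (φt v * sg π) = φt v
    rw [mul_comm (φt v), ← mul_assoc, h3, one_mul]
  have hc : (Fintype.card (∀ q : Q, Equiv.Perm (Fin (n q))) : K) ≠ 0 :=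
    Nat.cast_ne_zero.2 Fintype.card_ne_zero
  have h1 : φt = (Fintype.card (∀ q : Q, Equiv.Perm (Fin (n q))) : K)⁻¹ • ψ := by
    refine MultilinearMap.ext fun v => ?_
    rw [_root_.smul_apply, hval, smul_eq_mul, ← mul_assoc, inv_mul_cancel₀ hc, one_mul]
  rw [h1]
  exact Submodule.smul_mem _ _ hψ

include halt hnd hωρ hst hor htw hirr hnil hpos in
/-- All Tate forms are combinations of products of bilinear Tate forms and determinants. -/
theorem main_pi_det [IsAlgClosed K] {m : ℕ}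
    (φ : MultilinearMap K (fun _ : Fin m × Fin 2 => ∀ i, E i) K) (hφ : IsTate (piRep r) χ m φ) :
    φ ∈ Submodule.span K (PiDet r χ st m) := by
  classical
  have h1 : φ = ∑ t : Fin m × Fin 2 → I, φ.compLinearMap
      (fun k => (LinearMap.single K E (t k)).comp (LinearMap.proj (t k))) := by
    refine MultilinearMap.ext fun v => ?_
    rw [_root_.sum_apply]
    have h2 : v = fun k => ∑ i, Pi.single i (v k i) := by
      funext k
      exact (Finset.univ_sum_single (v k)).symm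
    conv_lhs => rw [h2]
    rw [MultilinearMap.map_sum]
    rfl
  rw [h1]
  exact Submodule.sum_mem _ fun t _ =>
    type_mem ω halt hnd hωρ hst hor htw hirr hnil hpos φ hφ t

end

end Pool.Agent.TH118.WC
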