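import Mathlib
import Pool.Agent.H86.CMLib.TH118.WC.Reps

/-!
# From the sum of the representatives to the whole space
-/

set_option linter.unusedSectionVars false

namespace Pool.Agent.TH118.WC

open Module Pool.Agent.H204R3.SP Pool.Agent.H204R3.GP Pool.Agent.W522.U Pool.Agent.W529.Ta
open Pool.Agent.W528.Odd
open Pool.Agent.W528.Tor (AltDual)

noncomputable section

variable {K : Type} [Field K] [CharZero K] {X : Type} [AddCommGroup X] [Module K X]
  [FiniteDimensional K X]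
  {Γ : Type} [Group Γ]

/-- The products of bilinear Tate forms and determinants. -/
def DetProd (R : Representation K Γ X) (χ : Γ →* K) (m : ℕ) :
    Set (MultilinearMap K (fun _ : Fin m × Fin 2 => X) K) :=
  {φ | ∃ (P Q : Type) (_ : Fintype P) (_ : Fintype Q) (U : Q → Submodule K X)
    (f : ∀ q, Basis (Fin (finrank K (U q))) K (U q))
    (e : (P × Fin 2) ⊕ (Σ q, Fin (finrank K (U q))) ≃ Fin m × Fin 2)
    (B : P → X →ₗ[K] X →ₗ[K] K) (C : ∀ q, Fin (finrank K (U q)) → X →ₗ[K] X →ₗ[K] K),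
    (∀ p, IsTate2 R χ (B p)) ∧ (∀ q s, IsTate2 R χ (C q s)) ∧
    (∀ q, SI R (U q)) ∧ (∀ q q', ¬Du R χ (U q) (U q')) ∧
    (∃ (d : ℕ) (Δ : Subgroup Γ) (h : ∀ q, ∀ g ∈ Δ, ∀ u ∈ U q, R g u ∈ U q), Δ.FiniteIndex ∧
      2 * d = ∑ q, finrank K (U q) ∧
      ∀ (g : Γ) (hg : g ∈ Δ), ∏ q, LinearMap.det ((R g).restrict (h q g hg)) = χ g ^ d) ∧
    ∀ v, φ v = (∏ p, B p (v (e (Sum.inl (p, 0)))) (v (e (Sum.inl (p, 1))))) *
      ∏ q, Matrix.det (Matrix.of fun s s' => C q s (v (e (Sum.inr ⟨q, s⟩))) (f q s' : X))}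

variable {R : Representation K Γ X} {χ : Γ →* K}

/-- From the sum of the representatives to the whole space. -/
theorem det_of_reps (hss : HasProj R) {s : ℕ} (W : Fin s → Submodule K X) (hW : ∀ i, SI R (W i))
    (hall : ∀ U, SI R U → ∃ i, Tw R (fun _ => 1) U (W i))
    (st : Fin s → Fin s) (hDu' : ∀ i j, Du R χ (W i) (W j) → j = st i)
    (Δ : Subgroup Γ) (hΔ : Δ.FiniteIndex) (hWΔ : ∀ i, ∀ g ∈ Δ, ∀ u ∈ W i, R g u ∈ W i) (m : ℕ)
    (hE : ∀ (φ : MultilinearMap K (fun _ : Fin m × Fin 2 => ∀ i, W i) K),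
        IsTate (piRep (fun i => resR R Δ (W i) (hWΔ i))) (χ.comp Δ.subtype) m φ →
        φ ∈ Submodule.span K (PiDet (fun i => resR R Δ (W i) (hWΔ i))
          (χ.comp Δ.subtype) st m))
    (φ : MultilinearMap K (fun _ : Fin m × Fin 2 => X) K) (hφ : IsTate R χ m φ) :
    φ ∈ Submodule.span K (DetProd R χ m) := by
  classical
  obtain ⟨Δφ, hΔφ, hφ⟩ := hφ
  obtain ⟨n, f, T, hfT⟩ := Submodule.mem_span_set'.1 (decomp hss W hW hall)
  choose i p ι D hD hp hι hT using fun l => (T l).2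
  choose Qp hQ1 hQ2 hQ3 using fun i => hss Δ hΔ (W i) (hWΔ i)
  -- expansion
  have hexp : φ = ∑ L : Fin m × Fin 2 → Fin n, (∏ k, f (L k)) •
      φ.compLinearMap (fun k => (T (L k)).1) := by
    ext v
    rw [_root_.sum_apply]
    have h1 : v = fun k => ∑ l, f l • (T l).1 (v k) := by
      funext k
      have h2 := congrArg (fun F : Module.End K X => F (v k)) hfT
      simp only [LinearMap.sum_apply, LinearMap.smul_apply, Module.End.one_apply] at h2
      exact h2.symm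
    conv_lhs => rw [h1]
    rw [MultilinearMap.map_sum]
    refine Finset.sum_congr rfl fun L _ => ?_
    rw [MultilinearMap.map_smul_univ]
    rfl
  rw [hexp]
  refine Submodule.sum_mem _ fun L _ => Submodule.smul_mem _ _ ?_
  -- the form on the sum of the representatives
  let r := fun i => resR R Δ (W i) (hWΔ i)
  let φL : MultilinearMap K (fun _ : Fin m × Fin 2 => ∀ i, W i) K :=
    φ.compLinearMap (fun k => (ι (L k)).comp (LinearMap.proj (i (L k))))
  have hDD : (⨅ l, D l).FiniteIndex := Subgroup.finiteIndex_iInf hD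
  have hφL : IsTate (piRep r) (χ.comp Δ.subtype) m φL := by
    refine ⟨(Δφ ⊓ ⨅ l, D l).subgroupOf Δ, inferInstance, fun g hg w => ?_⟩
    rw [Subgroup.mem_subgroupOf] at hg
    change φ (fun k => ι (L k) (piRep r g (w k) (i (L k)))) = χ g.1 ^ m * φ (fun k => _)
    rw [← hφ g.1 hg.1]
    congr 1
    funext k
    exact hι (L k) g.1 (Subgroup.mem_iInf.1 hg.2 _) _ _ rfl
  let q : Fin m × Fin 2 → (X →ₗ[K] ∀ i, W i) := fun k =>
    (LinearMap.single K (fun i => W i) (i (L k))).comp (p (L k))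
  have hq : ∀ (k : Fin m × Fin 2) (g : Γ) (hg : g ∈ Δ), g ∈ (⨅ l, D l) → ∀ x,
      q k (R g x) = piRep r ⟨g, hg⟩ (q k x) := by
    intro k g hg hg' x
    change (Pi.single (i (L k)) (p (L k) (R g x)) : ∀ i, W i) =
      piRep r ⟨g, hg⟩ (Pi.single (i (L k)) (p (L k) x))
    rw [piRep_single]
    congr 1
    exact Subtype.ext (hp (L k) g (Subgroup.mem_iInf.1 hg' _) x)
  -- the projections to the representatives
  let pr : ∀ j, X →ₗ[K] ∀ i, W i := fun j =>
    (LinearMap.single K (fun i => W i) j).comp ((Qp j).codRestrict (W j) (hQ1 j))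
  have hpr : ∀ (j : Fin s) (g : Γ) (hg : g ∈ Δ) x, pr j (R g x) = piRep r ⟨g, hg⟩ (pr j x) := by
    intro j g hg x
    change (Pi.single j ((Qp j).codRestrict (W j) (hQ1 j) (R g x)) : ∀ i, W i) =
      piRep r ⟨g, hg⟩ (Pi.single j ((Qp j).codRestrict (W j) (hQ1 j) x))
    rw [piRep_single]
    congr 1
    exact Subtype.ext (hQ3 j g hg x)
  have hprW : ∀ (j : Fin s) (u : W j), pr j (u : X) = Pi.single j u := by
    intro j u
    change (Pi.single j ((Qp j).codRestrict (W j) (hQ1 j) (u : X)) : ∀ i, W i) = _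
    congr 1
    exact Subtype.ext (hQ2 j u u.2)
  have h1 : φ.compLinearMap (fun k => (T (L k)).1) = MultilinearMap.compLinearMapₗ q φL := by
    ext v
    change φ (fun k => (T (L k)).1 (v k)) = φ (fun k => ι (L k)
      ((Pi.single (i (L k)) (p (L k) (v k)) : ∀ i, W i) (i (L k))))
    congr 1
    funext k
    rw [hT, Pi.single_eq_same]
    rfl
  rw [h1]
  have h2 : (Submodule.span K (PiDet r (χ.comp Δ.subtype) st m)).map
      (MultilinearMap.compLinearMapₗ q) ≤ Submodule.span K (DetProd R χ m) := by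
    rw [Submodule.map_span, Submodule.span_le]
    rintro _ ⟨ψ, ⟨P, Q, hP, hQ, j, e, B, C, hB, hC, hj, ⟨d, Δ₁, hΔ₁, hd, hdet⟩, hψ⟩, rfl⟩
    refine Submodule.subset_span ⟨P, Q, hP, hQ, fun x => W (j x),
      fun x => finBasis K (W (j x)), e,
      fun x => (B x).compl₁₂ (q (e (Sum.inl (x, 0)))) (q (e (Sum.inl (x, 1)))),
      fun x y => (C x y).compl₁₂ (q (e (Sum.inr ⟨x, y⟩))) (pr (j x)),
      fun x => ?_, fun x y => ?_, fun x => hW _, fun x y h => hj x y (hDu' _ _ h).symm,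
      ⟨d, Δ₁.map Δ.subtype, ?_, fi_map hΔ Δ₁ hΔ₁, hd, ?_⟩, fun v => ?_⟩
    · obtain ⟨ΔB, hΔB, hB'⟩ := hB x
      have hfi := fi_map hΔ ΔB hΔB
      refine ⟨ΔB.map Δ.subtype ⊓ ⨅ l, D l, inferInstance, ?_⟩
      rintro _ ⟨⟨g, hg, rfl⟩, hg2⟩ u v
      change B x (q _ (R g.1 u)) (q _ (R g.1 v)) = χ g.1 * B x (q _ u) (q _ v)
      rw [hq _ g.1 g.2 hg2, hq _ g.1 g.2 hg2]
      exact hB' g hg _ _
    · obtain ⟨ΔB, hΔB, hB'⟩ := hC x y
      have hfi := fi_map hΔ ΔB hΔB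
      refine ⟨ΔB.map Δ.subtype ⊓ ⨅ l, D l, inferInstance, ?_⟩
      rintro _ ⟨⟨g, hg, rfl⟩, hg2⟩ u v
      change C x y (q _ (R g.1 u)) (pr _ (R g.1 v)) = χ g.1 * C x y (q _ u) (pr _ v)
      rw [hq _ g.1 g.2 hg2, hpr _ g.1 g.2]
      exact hB' g hg _ _
    · rintro x _ ⟨g, hg, rfl⟩ u hu
      exact hWΔ _ g.1 g.2 u hu
    · rintro _ ⟨g, hg, rfl⟩
      exact hdet g hg
    · change ψ (fun k => q k (v k)) = _
      rw [hψ]
      congr 1
      refine Finset.prod_congr rfl fun x _ => ?_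
      congr 1
      ext a b
      rw [Matrix.of_apply, Matrix.of_apply, LinearMap.compl₁₂_apply, hprW]
  exact h2 (Submodule.mem_map_of_mem (hE φL hφL))

variable (ω : X →ₗ[K] X →ₗ[K] K) (hnd : ∀ u, (∀ v, ω u v = 0) → u = 0)
  (hωR : ∀ g u v, ω (R g u) (R g v) = χ g * ω u v)
  (hR1 : ∀ U, SI R U → 2 ≤ finrank K U → ∃ γ : Γ, (R γ - 1) * (R γ - 1) = 0 ∧
    (finrank K (U.map (R γ - 1)) = 1 ∨ (U.map (R γ - 1) ≠ ⊥ ∧ AltDual R χ U ∧ CoreProp R χ U)))
  (hss : HasProj R)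
  (hR2 : ∀ U, SI R U → finrank K U = 1 → ¬Du R χ U U)
  (hH : ∀ U U', SI R U → SI R U' → 2 ≤ finrank K U → ¬Du R χ U U → ∀ ψ : Γ → K, Tw R ψ U U' →
    Tw R (fun _ => 1) U U')

include hnd hωR hR1 hR2 hH hss in
/-- The theorem over an algebraically closed field. -/
theorem main_det_X [IsAlgClosed K] {m : ℕ}
    (φ : MultilinearMap K (fun _ : Fin m × Fin 2 => X) K) (hφ : IsTate R χ m φ) :
    φ ∈ Submodule.span K (DetProd R χ m) := by
  obtain ⟨s, W, hW, hWW, hall⟩ := exists_reps hss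
  obtain ⟨st, hst, hDu, hDu'⟩ := exists_st hss ω hnd hωR W hW hWW hall
  obtain ⟨Δ, hΔ, hWΔ, hE⟩ := main_reps ω hnd hωR hR1 hss hR2 hH W hW hWW st hst hDu hDu'
  exact det_of_reps hss W hW hall st hDu' Δ hΔ hWΔ m (hE m) φ hφ

end

end Pool.Agent.TH118.WC
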