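import Mathlib

/-!
# Wedge products of two-forms and linear forms
-/

set_option linter.unusedSectionVars false

namespace Pool.Agent.TH118.WC

open Module

noncomputable section

variable {K : Type*} [Field K] {Y : Type*} [AddCommGroup Y] [Module K Y]
  {N S P : Type*} [Fintype N] [DecidableEq N] [Fintype S] [Fintype P]

/-- The wedge product of the bilinear forms `B p` and of the linear forms `a s` (as a function). -/
def wedge (e : (P × Fin 2) ⊕ S ≃ N) (B : P → Y →ₗ[K] Y →ₗ[K] K) (a : S → Dual K Y) :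
    (N → Y) → K := fun v =>
  ∑ σ : Equiv.Perm N, ((Equiv.Perm.sign σ : ℤ) : K) *
    ((∏ p, B p (v (σ (e (Sum.inl (p, 0))))) (v (σ (e (Sum.inl (p, 1)))))) *
      ∏ s, a s (v (σ (e (Sum.inr s)))))

theorem wedge_apply (e : (P × Fin 2) ⊕ S ≃ N) (B : P → Y →ₗ[K] Y →ₗ[K] K) (a : S → Dual K Y)
    (v : N → Y) : wedge e B a v = ∑ σ : Equiv.Perm N, ((Equiv.Perm.sign σ : ℤ) : K) *
    ((∏ p, B p (v (σ (e (Sum.inl (p, 0))))) (v (σ (e (Sum.inl (p, 1)))))) *
      ∏ s, a s (v (σ (e (Sum.inr s))))) := rfl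

/-- Permutation of the linear forms. -/
theorem wedge_perm [DecidableEq S] [DecidableEq P] (e : (P × Fin 2) ⊕ S ≃ N)
    (B : P → Y →ₗ[K] Y →ₗ[K] K) (a : S → Dual K Y) (τ : Equiv.Perm S) :
    wedge e B (fun s => a (τ s)) = ((Equiv.Perm.sign τ : ℤ) : K) • wedge e B a := by
  let τ' : Equiv.Perm N := (e.symm.trans ((Equiv.sumCongr (Equiv.refl (P × Fin 2)) τ).trans e))
  have h1 : ∀ s, τ' (e (Sum.inr s)) = e (Sum.inr (τ s)) := by
    intro s
    simp [τ']
  have h2 : ∀ p, τ' (e (Sum.inl p)) = e (Sum.inl p) := by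
    intro p
    simp [τ']
  have h3 : Equiv.Perm.sign τ' = Equiv.Perm.sign τ := by
    have h4 := Equiv.Perm.sign_symm_trans_trans (Equiv.Perm.sumCongr (1 : Equiv.Perm (P × Fin 2)) τ) e
    have h5 := Equiv.Perm.sign_sumCongr (1 : Equiv.Perm (P × Fin 2)) τ
    rw [Equiv.Perm.sign_one, one_mul] at h5
    rw [← h5, ← h4]
    rfl
  funext v
  rw [Pi.smul_apply, smul_eq_mul, wedge_apply, wedge_apply, Finset.mul_sum]
  refine (Fintype.sum_equiv (Equiv.mulRight τ') _ _ fun σ => ?_).symm
  have h6 : (Equiv.Perm.sign (σ * τ') : ℤˣ) = Equiv.Perm.sign σ * Equiv.Perm.sign τ := by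
    rw [map_mul, h3]
  change _ = ((Equiv.Perm.sign (σ * τ') : ℤ) : K) *
    ((∏ p, B p (v (σ (τ' (e (Sum.inl (p, 0)))))) (v (σ (τ' (e (Sum.inl (p, 1))))))) *
      ∏ s, a (τ s) (v (σ (τ' (e (Sum.inr s))))))
  rw [h6]
  simp only [h1, h2]
  rw [Equiv.prod_comp τ (fun s => a s (v (σ (e (Sum.inr s)))))]
  push_cast
  ring

/-- Exchange of the variables of a two-form. -/
theorem wedge_flip [DecidableEq P] (e : (P × Fin 2) ⊕ S ≃ N)
    (B : P → Y →ₗ[K] Y →ₗ[K] K) (a : S → Dual K Y) (p : P) :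
    wedge e (Function.update B p (B p).flip) a = -wedge e B a := by
  let τ : Equiv.Perm N := Equiv.swap (e (Sum.inl (p, 0))) (e (Sum.inl (p, 1)))
  have h0 : e (Sum.inl (p, 0)) ≠ e (Sum.inl (p, 1)) := by
    intro h
    have h1 := e.injective h
    simp at h1
  have h1 : ∀ s, τ (e (Sum.inr s)) = e (Sum.inr s) := by
    intro s
    refine Equiv.swap_apply_of_ne_of_ne ?_ ?_ <;> · intro h; have h1 := e.injective h; simp at h1
  have h2 : ∀ p', p' ≠ p → ∀ x, τ (e (Sum.inl (p', x))) = e (Sum.inl (p', x)) := by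
    intro p' hp' x
    refine Equiv.swap_apply_of_ne_of_ne ?_ ?_ <;>
      · intro h
        have h1 := e.injective h
        simp only [Sum.inl.injEq, Prod.mk.injEq] at h1
        exact hp' h1.1
  have h3 : τ (e (Sum.inl (p, 0))) = e (Sum.inl (p, 1)) := Equiv.swap_apply_left _ _
  have h4 : τ (e (Sum.inl (p, 1))) = e (Sum.inl (p, 0)) := Equiv.swap_apply_right _ _
  funext v
  rw [Pi.neg_apply, wedge_apply, wedge_apply, ← Finset.sum_neg_distrib]
  refine (Fintype.sum_equiv (Equiv.mulRight τ) _ _ fun σ => ?_).symm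
  have h6 : (Equiv.Perm.sign (σ * τ) : ℤˣ) = Equiv.Perm.sign σ * (-1) := by
    rw [map_mul, Equiv.Perm.sign_swap h0]
  change _ = ((Equiv.Perm.sign (σ * τ) : ℤ) : K) *
    ((∏ p', Function.update B p (B p).flip p' (v (σ (τ (e (Sum.inl (p', 0))))))
      (v (σ (τ (e (Sum.inl (p', 1))))))) * ∏ s, a s (v (σ (τ (e (Sum.inr s))))))
  rw [h6]
  simp only [h1]
  have h7 : ∏ p', Function.update B p (B p).flip p' (v (σ (τ (e (Sum.inl (p', 0))))))
      (v (σ (τ (e (Sum.inl (p', 1)))))) = ∏ p', B p' (v (σ (e (Sum.inl (p', 0)))))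
      (v (σ (e (Sum.inl (p', 1))))) := by
    refine Finset.prod_congr rfl fun p' _ => ?_
    by_cases h : p' = p
    · subst h
      rw [Function.update_self, h3, h4, LinearMap.flip_apply]
    · rw [Function.update_of_ne h, h2 p' h, h2 p' h]
  rw [h7]
  push_cast
  ring

theorem wedge_update (e : (P × Fin 2) ⊕ S ≃ N) [DecidableEq P]
    (B : P → Y →ₗ[K] Y →ₗ[K] K) (a : S → Dual K Y) (p : P) (b b' : Y →ₗ[K] Y →ₗ[K] K) (c : K) :
    wedge e (Function.update B p (c • (b - b'))) a =
      c • (wedge e (Function.update B p b) a - wedge e (Function.update B p b') a) := by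
  funext v
  rw [Pi.smul_apply, Pi.sub_apply, smul_eq_mul, wedge_apply, wedge_apply, wedge_apply,
    ← Finset.sum_sub_distrib, Finset.mul_sum]
  refine Finset.sum_congr rfl fun σ _ => ?_
  have h1 : ∀ b : Y →ₗ[K] Y →ₗ[K] K, ∏ p', Function.update B p b p' (v (σ (e (Sum.inl (p', 0)))))
      (v (σ (e (Sum.inl (p', 1))))) = b (v (σ (e (Sum.inl (p, 0)))))
      (v (σ (e (Sum.inl (p, 1))))) * ∏ p' ∈ Finset.univ.erase p, B p' (v (σ (e (Sum.inl (p', 0)))))
      (v (σ (e (Sum.inl (p', 1))))) := by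
    intro b
    rw [← Finset.mul_prod_erase _ _ (Finset.mem_univ p), Function.update_self]
    congr 1
    refine Finset.prod_congr rfl fun p' hp' => ?_
    rw [Function.update_of_ne (Finset.ne_of_mem_erase hp')]
  rw [h1, h1, h1]
  simp only [LinearMap.smul_apply, LinearMap.sub_apply, smul_eq_mul]
  ring

/-- Only the alternating parts of the bilinear forms matter. -/
theorem wedge_alt [CharZero K] [DecidableEq P] (e : (P × Fin 2) ⊕ S ≃ N)
    (B : P → Y →ₗ[K] Y →ₗ[K] K) (a : S → Dual K Y) :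
    wedge e (fun p => (2⁻¹ : K) • (B p - (B p).flip)) a = wedge e B a := by
  have key : ∀ s : Finset P, wedge e (fun p => if p ∈ s then (2⁻¹ : K) • (B p - (B p).flip)
      else B p) a = wedge e B a := by
    intro s
    induction s using Finset.induction_on with
    | empty => simp
    | insert p s hp ih =>
      set B' : P → Y →ₗ[K] Y →ₗ[K] K := fun p => if p ∈ s then (2⁻¹ : K) • (B p - (B p).flip)
        else B p with hB'
      have hpB : B' p = B p := if_neg hp
      have h1 : (fun p' => if p' ∈ insert p s then (2⁻¹ : K) • (B p' - (B p').flip) else B p') =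
          Function.update B' p ((2⁻¹ : K) • (B' p - (B' p).flip)) := by
        funext p'
        by_cases h : p' = p
        · subst h
          rw [Function.update_self, if_pos (Finset.mem_insert_self _ _), hpB]
        · rw [Function.update_of_ne h]
          simp only [Finset.mem_insert, h, false_or, hB']
      rw [h1, wedge_update, wedge_flip, Function.update_eq_self, sub_neg_eq_add, ← two_smul K,
        smul_smul, inv_mul_cancel₀ two_ne_zero, one_smul, ih]
  have h1 := key Finset.univ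
  simp only [Finset.mem_univ, if_true] at h1
  exact h1

theorem wedge_sum {T : S → Type*} [∀ s, Fintype (T s)] [∀ s, DecidableEq (T s)] [DecidableEq S]
    (e : (P × Fin 2) ⊕ S ≃ N) (B : P → Y →ₗ[K] Y →ₗ[K] K)
    (A : ∀ s, Finset (T s)) (c : ∀ s, T s → Dual K Y) :
    wedge e B (fun s => ∑ t ∈ A s, c s t) = ∑ g ∈ Fintype.piFinset A,
      wedge e B (fun s => c s (g s)) := by
  funext v
  rw [Finset.sum_apply]
  simp only [wedge_apply]
  rw [Finset.sum_comm]
  refine Finset.sum_congr rfl fun σ _ => ?_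
  rw [← Finset.mul_sum, ← Finset.mul_sum]
  congr 2
  simp only [LinearMap.sum_apply]
  rw [Finset.prod_univ_sum]

end

end Pool.Agent.TH118.WC
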