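import Mathlib
import Pool.Agent.H86.CMLib.TH118.WC.Wedge

/-!
# Polarization
-/

set_option linter.unusedSectionVars false

namespace Pool.Agent.TH118.WC

open Module

noncomputable section

theorem sum_avoid {R : Type*} [CommRing R] {n : ℕ} (g : Fin n → Fin n) :
    ∑ C : Finset (Fin n), (if ∀ s, g s ∉ C then ((-1 : R)) ^ C.card else 0) =
      if Function.Bijective g then 1 else 0 := by
  classical
  have h1 : ∀ C : Finset (Fin n), (∀ s, g s ∉ C) ↔ C ∈ ((Finset.univ.image g)ᶜ).powerset := by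
    intro C
    rw [Finset.mem_powerset]
    constructor
    · intro h x hx
      rw [Finset.mem_compl, Finset.mem_image]
      rintro ⟨s, -, rfl⟩
      exact h s hx
    · intro h s hs
      have h2 := h hs
      rw [Finset.mem_compl, Finset.mem_image] at h2
      exact h2 ⟨s, Finset.mem_univ _, rfl⟩
  have h2 : ∑ C : Finset (Fin n), (if ∀ s, g s ∉ C then ((-1 : R)) ^ C.card else 0) =
      ∑ C ∈ ((Finset.univ.image g)ᶜ).powerset, (-1 : R) ^ C.card := by
    rw [← Finset.sum_filter]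
    refine Finset.sum_congr ?_ fun _ _ => rfl
    ext C
    rw [Finset.mem_filter, h1]
    simp
  rw [h2]
  have h3 := Finset.sum_powerset_neg_one_pow_card (x := (Finset.univ.image g)ᶜ)
  have h4 : ∑ C ∈ ((Finset.univ.image g)ᶜ).powerset, (-1 : R) ^ C.card =
      ((∑ C ∈ ((Finset.univ.image g)ᶜ).powerset, (-1 : ℤ) ^ C.card : ℤ) : R) := by
    push_cast
    rfl
  rw [h4, h3]
  have h5 : (Finset.univ.image g)ᶜ = ∅ ↔ Function.Bijective g := by
    rw [← Finite.surjective_iff_bijective, Finset.compl_eq_empty_iff]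
    constructor
    · intro h x
      have h6 : x ∈ Finset.univ.image g := by
        rw [h]
        exact Finset.mem_univ _
      obtain ⟨s, -, hs⟩ := Finset.mem_image.1 h6
      exact ⟨s, hs⟩
    · intro h
      exact Finset.image_univ_of_surjective h
  by_cases h : Function.Bijective g
  · rw [if_pos h, if_pos (h5.2 h), Int.cast_one]
  · rw [if_neg h, if_neg (fun h' => h (h5.1 h')), Int.cast_zero]

variable {K : Type*} [Field K] {Y : Type*} [AddCommGroup Y] [Module K Y]
  {N P Q : Type*} [Fintype N] [DecidableEq N] [Fintype P] [Fintype Q] [DecidableEq Q]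

theorem polar (n : Q → ℕ) (e : (P × Fin 2) ⊕ (Σ q, Fin (n q)) ≃ N)
    (B : P → Y →ₗ[K] Y →ₗ[K] K) (c : ∀ q, Fin (n q) → Fin (n q) → Dual K Y) :
    ∑ π : (∀ q, Equiv.Perm (Fin (n q))), wedge e B (fun s => c s.1 (π s.1 s.2) s.2) =
      ∑ C : (∀ q, Finset (Fin (n q))), (∏ q, (-1 : K) ^ (C q).card) •
        wedge e B (fun s => ∑ t ∈ (C s.1)ᶜ, c s.1 t s.2) := by
  classical
  let W : (∀ s : (Σ q, Fin (n q)), Fin (n s.1)) → ((N → Y) → K) := fun g =>
    wedge e B (fun s => c s.1 (g s) s.2)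
  let gg : (∀ s : (Σ q, Fin (n q)), Fin (n s.1)) → ∀ q, Fin (n q) → Fin (n q) :=
    fun g q s => g ⟨q, s⟩
  have h1 : ∀ C : (∀ q, Finset (Fin (n q))), wedge e B (fun s => ∑ t ∈ (C s.1)ᶜ, c s.1 t s.2) =
      ∑ g : (∀ s : (Σ q, Fin (n q)), Fin (n s.1)),
        if ∀ (q : Q) (s : Fin (n q)), gg g q s ∉ C q then W g else 0 := by
    intro C
    have h0 := wedge_sum (T := fun s : (Σ q, Fin (n q)) => Fin (n s.1)) e B
      (fun s => (C s.1)ᶜ) (fun s t => c s.1 t s.2)
    rw [h0, ← Finset.sum_filter]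
    refine Finset.sum_congr ?_ fun _ _ => rfl
    ext g
    rw [Fintype.mem_piFinset, Finset.mem_filter]
    constructor
    · intro h
      exact ⟨Finset.mem_univ _, fun q s => Finset.mem_compl.1 (h ⟨q, s⟩)⟩
    · rintro ⟨-, h⟩ ⟨q, s⟩
      exact Finset.mem_compl.2 (h q s)
  have h2 : ∀ g : (∀ s : (Σ q, Fin (n q)), Fin (n s.1)),
      ∑ C : (∀ q, Finset (Fin (n q))), (if ∀ (q : Q) (s : Fin (n q)), gg g q s ∉ C q then
        (∏ q, (-1 : K) ^ (C q).card) else 0) =
      ∏ q : Q, (if Function.Bijective (fun s : Fin (n q) => gg g q s) then (1 : K)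
        else 0) := by
    intro g
    have h3 : ∀ q : Q, (if Function.Bijective (fun s : Fin (n q) => gg g q s)
        then (1 : K) else 0) =
        ∑ C : Finset (Fin (n q)), (if ∀ s, gg g q s ∉ C then
          ((-1 : K)) ^ C.card else 0) :=
      fun q => (sum_avoid (fun s : Fin (n q) => gg g q s)).symm
    rw [Finset.prod_congr rfl (fun q _ => h3 q), Finset.prod_univ_sum, Fintype.piFinset_univ]
    refine Finset.sum_congr rfl fun C _ => ?_
    by_cases h : ∀ q s, g ⟨q, s⟩ ∉ C q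
    · rw [if_pos h]
      refine Finset.prod_congr rfl fun q _ => ?_
      rw [if_pos (h q)]
    · rw [if_neg h]
      push Not at h
      obtain ⟨q, s, hqs⟩ := h
      symm
      refine Finset.prod_eq_zero (Finset.mem_univ q) ?_
      rw [if_neg]
      intro h'
      exact h' s hqs
  have h3 : ∑ C : (∀ q, Finset (Fin (n q))), (∏ q, (-1 : K) ^ (C q).card) •
        wedge e B (fun s => ∑ t ∈ (C s.1)ᶜ, c s.1 t s.2) =
      ∑ g : (∀ s : (Σ q, Fin (n q)), Fin (n s.1)),
        (∏ q : Q, (if Function.Bijective (fun s : Fin (n q) => gg g q s)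
          then (1 : K) else 0)) • W g := by
    simp only [h1, Finset.smul_sum]
    rw [Finset.sum_comm]
    refine Finset.sum_congr rfl fun g _ => ?_
    rw [← h2 g, Finset.sum_smul]
    refine Finset.sum_congr rfl fun C _ => ?_
    split_ifs
    · rfl
    · rw [smul_zero, zero_smul]
  rw [h3]
  refine Fintype.sum_of_injective (fun π : (∀ q, Equiv.Perm (Fin (n q))) =>
    fun s : (Σ q, Fin (n q)) => π s.1 s.2) ?_ _ _ ?_ ?_
  · intro π π' h
    funext q
    ext s
    have h4 := congrFun h ⟨q, s⟩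
    exact congrArg Fin.val h4
  · intro g hg
    by_cases h : ∀ q, Function.Bijective (fun s : Fin (n q) => gg g q s)
    · exfalso
      apply hg
      refine ⟨fun q => Equiv.ofBijective _ (h q), ?_⟩
      funext s
      rfl
    · push Not at h
      obtain ⟨q, hq⟩ := h
      rw [Finset.prod_eq_zero (Finset.mem_univ q) (if_neg hq), zero_smul]
  · intro π
    have h4 : ∏ q, (if Function.Bijective (fun s => π q s) then (1 : K) else 0) = 1 :=
      Finset.prod_eq_one fun q _ => if_pos (π q).bijective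
    change _ = (∏ q, (if Function.Bijective (fun s => π q s) then (1 : K) else 0)) • _
    rw [h4, one_smul]

theorem sign_sigma (n : Q → ℕ) (π : ∀ q, Equiv.Perm (Fin (n q))) :
    Equiv.Perm.sign (Equiv.Perm.sigmaCongrRight π) = ∏ q, Equiv.Perm.sign (π q) := by
  classical
  let f : (∀ q, Equiv.Perm (Fin (n q))) →* ℤˣ :=
    (Equiv.Perm.sign).comp (Equiv.Perm.sigmaCongrRightHom (fun q => Fin (n q)))
  let g : (∀ q, Equiv.Perm (Fin (n q))) →* ℤˣ :=
    ∏ q, (Equiv.Perm.sign).comp (Pi.evalMonoidHom (fun q => Equiv.Perm (Fin (n q))) q)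
  have hfg : f = g := by
    refine MonoidHom.pi_ext fun q σ => ?_
    have h1 : g (Pi.mulSingle (M := fun q => Equiv.Perm (Fin (n q))) q σ) =
        Equiv.Perm.sign σ := by
      simp only [g, MonoidHom.finsetProd_apply, MonoidHom.comp_apply, Pi.evalMonoidHom_apply]
      rw [Finset.prod_eq_single q]
      · rw [Pi.mulSingle_eq_same]
      · intro q' _ hq'
        rw [Pi.mulSingle_eq_of_ne hq', Equiv.Perm.sign_one]
      · intro h
        exact absurd (Finset.mem_univ q) h
    rw [h1]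
    change Equiv.Perm.sign (Equiv.Perm.sigmaCongrRight
      (Pi.mulSingle (M := fun q => Equiv.Perm (Fin (n q))) q σ)) = _
    symm
    refine Equiv.Perm.sign_bij (fun x _ => (⟨q, x⟩ : Σ q, Fin (n q))) ?_ ?_ ?_
    · intro x _ _
      change (⟨q, σ x⟩ : Σ q, Fin (n q)) = ⟨q, (Pi.mulSingle (M := fun q => Equiv.Perm (Fin (n q))) q σ) q x⟩
      rw [Pi.mulSingle_eq_same]
    · intro x y _ _ h
      exact eq_of_heq (Sigma.mk.inj h).2
    · rintro ⟨q', x⟩ hx
      by_cases hq : q' = q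
      · subst hq
        refine ⟨x, ?_, rfl⟩
        intro h
        apply hx
        change (⟨q', (Pi.mulSingle (M := fun q => Equiv.Perm (Fin (n q))) q' σ) q' x⟩ :
          Σ q, Fin (n q)) = ⟨q', x⟩
        rw [Pi.mulSingle_eq_same, h]
      · exfalso
        apply hx
        change (⟨q', (Pi.mulSingle (M := fun q => Equiv.Perm (Fin (n q))) q σ) q' x⟩ :
          Σ q, Fin (n q)) = ⟨q', x⟩
        rw [Pi.mulSingle_eq_of_ne hq]
        rfl
  have h2 := congrArg (fun F : (∀ q, Equiv.Perm (Fin (n q))) →* ℤˣ => F π) hfg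
  change Equiv.Perm.sign (Equiv.Perm.sigmaCongrRight π) = g π at h2
  rw [h2]
  simp only [g, MonoidHom.finsetProd_apply, MonoidHom.comp_apply, Pi.evalMonoidHom_apply]

/-- A sum over permutations as a combination of wedge products in which the parameters are
constant along the fibres. -/
theorem det_wedge [DecidableEq P] (n : Q → ℕ) (e : (P × Fin 2) ⊕ (Σ q, Fin (n q)) ≃ N)
    (B : P → Y →ₗ[K] Y →ₗ[K] K) (c : ∀ q, Fin (n q) → Fin (n q) → Dual K Y) (v : N → Y) :
    ∑ σ : Equiv.Perm N, ((Equiv.Perm.sign σ : ℤ) : K) *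
      ((∏ p, B p (v (σ (e (Sum.inl (p, 0))))) (v (σ (e (Sum.inl (p, 1)))))) *
        ∏ q, Matrix.det (Matrix.of fun s s' => c q s s' (v (σ (e (Sum.inr ⟨q, s⟩)))))) =
      ∑ C : (∀ q, Finset (Fin (n q))), (∏ q, (-1 : K) ^ (C q).card) *
        wedge e B (fun s => ∑ t ∈ (C s.1)ᶜ, c s.1 t s.2) v := by
  classical
  have hpol := congrFun (polar n e B c) v
  rw [Finset.sum_apply, Finset.sum_apply] at hpol
  simp only [Pi.smul_apply, smul_eq_mul] at hpol
  rw [← hpol]
  -- expansion of the determinants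
  have h1 : ∀ σ : Equiv.Perm N,
      ∏ q, Matrix.det (Matrix.of fun s s' => c q s s' (v (σ (e (Sum.inr ⟨q, s⟩))))) =
      ∑ π : (∀ q, Equiv.Perm (Fin (n q))), (∏ q, ((Equiv.Perm.sign (π q) : ℤ) : K)) *
        ∏ s : (Σ q, Fin (n q)), c s.1 (π s.1 s.2) s.2 (v (σ (e (Sum.inr ⟨s.1, π s.1 s.2⟩)))) := by
    intro σ
    simp only [Matrix.det_apply', Matrix.of_apply]
    rw [Finset.prod_univ_sum, Fintype.piFinset_univ]
    refine Finset.sum_congr rfl fun π _ => ?_
    rw [Finset.prod_mul_distrib, Fintype.prod_sigma]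
  simp only [h1, Finset.mul_sum]
  rw [Finset.sum_comm]
  refine Finset.sum_congr rfl fun π _ => ?_
  rw [wedge_apply]
  let τ : Equiv.Perm (Σ q, Fin (n q)) := Equiv.Perm.sigmaCongrRight π
  let τ' : Equiv.Perm N := (e.symm.trans ((Equiv.sumCongr (Equiv.refl (P × Fin 2)) τ).trans e))
  have h4 : ∀ s, τ' (e (Sum.inr s)) = e (Sum.inr (τ s)) := by
    intro s
    simp [τ']
  have h5 : ∀ p, τ' (e (Sum.inl p)) = e (Sum.inl p) := by
    intro p
    simp [τ']
  have h6 : Equiv.Perm.sign τ' = ∏ q, Equiv.Perm.sign (π q) := by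
    have h7 := Equiv.Perm.sign_symm_trans_trans
      (Equiv.Perm.sumCongr (1 : Equiv.Perm (P × Fin 2)) τ) e
    have h8 := Equiv.Perm.sign_sumCongr (1 : Equiv.Perm (P × Fin 2)) τ
    rw [Equiv.Perm.sign_one, one_mul] at h8
    rw [← sign_sigma n π, ← h8, ← h7]
    rfl
  refine Fintype.sum_equiv (Equiv.mulRight τ') _ _ fun σ => ?_
  have h7 : (Equiv.Perm.sign (σ * τ') : ℤˣ) = Equiv.Perm.sign σ * ∏ q, Equiv.Perm.sign (π q) := by
    rw [map_mul, h6]
  change _ = ((Equiv.Perm.sign (σ * τ') : ℤ) : K) *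
    ((∏ p, B p (v (σ (τ' (e (Sum.inl (p, 0)))))) (v (σ (τ' (e (Sum.inl (p, 1))))))) *
      ∏ s : (Σ q, Fin (n q)), c s.1 (π s.1 s.2) s.2 (v (σ (τ' (e (Sum.inr s))))))
  rw [h7]
  simp only [h4, h5]
  push_cast
  have h8 : ∀ s : (Σ q, Fin (n q)), τ s = ⟨s.1, π s.1 s.2⟩ := fun s => rfl
  simp only [h8]
  ring

end

end Pool.Agent.TH118.WC
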